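import Mathlib
import Pool.Agent.Helper74.ISC.Numerics

/-!
# Volumes of balls, and an integral over a point
-/

namespace Pool.Agent.Helper62.HC

open MeasureTheory Set Module
open Pool.Agent.Helper74.ISC

/-- the volume of `{‖y‖² < s}` in dimension `k` -/
noncomputable def fullVol (k : ℕ) (s : ℝ) : ℝ := ballVol k * (max s 0) ^ ((k : ℝ) / 2)

theorem fullVol_nonneg (k : ℕ) (s : ℝ) : 0 ≤ fullVol k s :=
  mul_nonneg (ballVol_pos k).le (Real.rpow_nonneg (le_max_right _ _) _)

theorem lint_zero (f : EuclideanSpace ℝ (Fin 0) → ENNReal) : ∫⁻ ζ, f ζ = f 0 := by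
  rw [volume_euclideanSpace_eq_dirac, lintegral_dirac]

variable {V : Type*} [NormedAddCommGroup V] [InnerProductSpace ℝ V]
    [FiniteDimensional ℝ V] [MeasurableSpace V] [BorelSpace V]

theorem volume_norm_sq_lt {k : ℕ} (hV : finrank ℝ V = k) (hk : 1 ≤ k) (s : ℝ) :
    volume {y : V | ‖y‖ ^ 2 < s} = ENNReal.ofReal (fullVol k s) := by
  rcases le_or_gt 0 s with hs | hs
  · have h1 := volume_shell (E := V) (r := 0) (n := k) (by omega) hk hs
    rw [lint_zero] at h1
    unfold fullVol
    rw [max_eq_left hs, ← h1]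
    congr 1
    ext y
    simp
  · have h2 : {y : V | ‖y‖ ^ 2 < s} = ∅ := by
      ext y; simp only [mem_ofPred_eq, mem_empty_iff_false, iff_false, not_lt]
      exact hs.le.trans (by positivity)
    have hk' : ((k : ℝ) / 2) ≠ 0 := by
      have : (0 : ℝ) < k := by exact_mod_cast hk
      positivity
    unfold fullVol
    rw [h2, max_eq_right hs.le, Real.zero_rpow hk']
    simp

end Pool.Agent.Helper62.HC
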