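import Mathlib

/-!
# A differential inequality along a ray

`r(x) = √(β² + x) - β` is the length, on a ray from a point `p` with `⟪p, θ⟫ = β ≥ 0`, of the part of the ray
in the ball `‖y‖² < ‖p‖² + x`. With `P = (r^(e+1)/(e+1))'` the inequality `P' ≤ a P + M`,
`M = (q/a)^q / 2`, `q = (e - 3)/2`, holds for every `a > 0`; it is integrated to
`P (x + h) ≤ exp (a h) P x + M (exp (a h) - 1)/a`.
-/

namespace Pool.Agent.Helper62.HC

open MeasureTheory Set Filter Topology

/-- the length of the part of the ray -/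
noncomputable def rayLen (β x : ℝ) : ℝ := Real.sqrt (β ^ 2 + max x 0) - β

/-- the derivative of `rayLen β x ^ (e + 1) / (e + 1)` -/
noncomputable def rayDer (e : ℕ) (β x : ℝ) : ℝ :=
  rayLen β x ^ e / (2 * Real.sqrt (β ^ 2 + max x 0))

/-- the constant `(q/a)^q / 2`, `q = (e - 3)/2` -/
noncomputable def rayMax (e : ℕ) (a : ℝ) : ℝ :=
  ((((e : ℝ) - 3) / 2) / a) ^ (((e : ℝ) - 3) / 2) / 2

theorem rayLen_nonneg {β : ℝ} (hβ : 0 ≤ β) (x : ℝ) : 0 ≤ rayLen β x := by
  unfold rayLen
  have h1 : Real.sqrt (β ^ 2) ≤ Real.sqrt (β ^ 2 + max x 0) :=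
    Real.sqrt_le_sqrt (by linarith [le_max_right x 0])
  rw [Real.sqrt_sq hβ] at h1
  linarith

theorem rayLen_of_nonpos {β x : ℝ} (hβ : 0 ≤ β) (hx : x ≤ 0) : rayLen β x = 0 := by
  unfold rayLen
  rw [max_eq_right hx, add_zero, Real.sqrt_sq hβ, sub_self]

theorem rayMax_nonneg {e : ℕ} (he : 3 ≤ e) {a : ℝ} (ha : 0 < a) : 0 ≤ rayMax e a := by
  have he' : (3 : ℝ) ≤ e := by exact_mod_cast he
  unfold rayMax
  exact div_nonneg (Real.rpow_nonneg (div_nonneg (div_nonneg (by linarith) (by norm_num)) ha.le) _)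
    (by norm_num)

theorem rayDer_nonneg (e : ℕ) {β : ℝ} (hβ : 0 ≤ β) (x : ℝ) : 0 ≤ rayDer e β x :=
  div_nonneg (pow_nonneg (rayLen_nonneg hβ x) _) (by positivity)

/-- the tangent line of `x ^ r` -/
theorem bern {r x y : ℝ} (hr : 1 ≤ r) (hx : 0 < x) (hy : 0 ≤ y) :
    x ^ r + r * x ^ (r - 1) * (y - x) ≤ y ^ r := by
  have h1 := one_add_mul_self_le_rpow_one_add (s := y / x - 1) (p := r)
    (by have := div_nonneg hy hx.le; linarith) hr
  have h2 : 1 + (y / x - 1) = y / x := by ring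
  rw [h2, Real.div_rpow hy hx.le] at h1
  have hxr : 0 < x ^ r := Real.rpow_pos_of_pos hx r
  rw [le_div_iff₀ hxr] at h1
  have h3 : x ^ r = x ^ (r - 1) * x := by
    rw [← Real.rpow_add_one hx.ne']
    congr 1
    ring
  calc x ^ r + r * x ^ (r - 1) * (y - x) = (1 + r * (y / x - 1)) * x ^ r := by
        rw [h3]
        field_simp
    _ ≤ y ^ r := h1

/-- the maximum of `(q + 1) u ^ q - a u ^ (q + 1)` -/
private lemma max_val {q a u : ℝ} (hq : 0 < q) (ha : 0 < a) (hu : 0 < u) :
    (q + 1) * u ^ q - a * u ^ (q + 1) ≤ (q / a) ^ q := by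
  have hqa : 0 < q / a := div_pos hq ha
  have h1 := bern (r := q + 1) (x := u) (y := q / a) (by linarith) hu hqa.le
  have h2 : q + 1 - 1 = q := by ring
  rw [h2, Real.rpow_add_one hqa.ne', Real.rpow_add_one hu.ne'] at h1
  rw [Real.rpow_add_one hu.ne']
  have h3 : ((q + 1) * u ^ q - a * (u ^ q * u)) * (q / a) ≤ (q / a) ^ q * (q / a) := by
    calc ((q + 1) * u ^ q - a * (u ^ q * u)) * (q / a)
        = u ^ q * u + (q + 1) * u ^ q * (q / a - u) := by
          field_simp
          ring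
      _ ≤ _ := h1
  exact le_of_mul_le_mul_right h3 hqa

/-- the same with natural powers -/
private lemma max_pow {e : ℕ} (he : 4 ≤ e) {a r : ℝ} (ha : 0 < a) (hr : 0 < r) :
    ((e : ℝ) - 1) / 2 * r ^ (e - 3) - a * r ^ (e - 1) ≤ 2 * rayMax e a := by
  have he' : (4 : ℝ) ≤ e := by exact_mod_cast he
  have h1 := max_val (q := ((e : ℝ) - 3) / 2) (a := a) (u := r ^ 2) (by linarith) ha (by positivity)
  have h2 : (r ^ 2) ^ (((e : ℝ) - 3) / 2) = r ^ (e - 3) := by
    rw [← Real.rpow_natCast r 2, ← Real.rpow_mul hr.le, ← Real.rpow_natCast r (e - 3)]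
    congr 1
    rw [Nat.cast_sub (by omega)]
    push_cast
    ring
  have h3 : (r ^ 2) ^ (((e : ℝ) - 3) / 2 + 1) = r ^ (e - 1) := by
    rw [← Real.rpow_natCast r 2, ← Real.rpow_mul hr.le, ← Real.rpow_natCast r (e - 1)]
    congr 1
    rw [Nat.cast_sub (by omega)]
    push_cast
    ring
  rw [h2, h3] at h1
  unfold rayMax
  have h4 : ((e : ℝ) - 3) / 2 + 1 = ((e : ℝ) - 1) / 2 := by ring
  rw [h4] at h1
  linarith

/-- the derivative of `rayDer` -/
private lemma hasDerivAt_rayDer {e : ℕ} {β x : ℝ} (hx : 0 < x) :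
    HasDerivAt (rayDer e β)
      (e * rayLen β x ^ (e - 1) / (4 * (β ^ 2 + x)) -
        rayLen β x ^ e / (4 * (β ^ 2 + x) * Real.sqrt (β ^ 2 + x))) x := by
  have hD : 0 < β ^ 2 + x := by positivity
  have hs : 0 < Real.sqrt (β ^ 2 + x) := Real.sqrt_pos.2 hD
  have h1 : HasDerivAt (fun y : ℝ => Real.sqrt (β ^ 2 + y)) (1 / (2 * Real.sqrt (β ^ 2 + x))) x :=
    ((hasDerivAt_id x).const_add (β ^ 2)).sqrt hD.ne'
  have h2 : HasDerivAt (fun y : ℝ => (Real.sqrt (β ^ 2 + y) - β) ^ e)
      (e * (Real.sqrt (β ^ 2 + x) - β) ^ (e - 1) * (1 / (2 * Real.sqrt (β ^ 2 + x)))) x :=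
    (h1.sub_const β).pow e
  have h3 : HasDerivAt (fun y : ℝ => 2 * Real.sqrt (β ^ 2 + y))
      (2 * (1 / (2 * Real.sqrt (β ^ 2 + x)))) x := h1.const_mul 2
  have h4 := h2.div h3 (by positivity)
  have h5 : (fun y : ℝ => (Real.sqrt (β ^ 2 + y) - β) ^ e) / (fun y : ℝ => 2 * Real.sqrt (β ^ 2 + y))
      =ᶠ[𝓝 x] rayDer e β := by
    filter_upwards [lt_mem_nhds hx] with y hy
    unfold rayDer rayLen
    rw [max_eq_left hy.le]
    rfl
  have h6 := h4.congr_of_eventuallyEq h5.symm
  refine h6.congr_deriv ?_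
  unfold rayLen
  rw [max_eq_left hx.le]
  have hsq : Real.sqrt (β ^ 2 + x) ^ 2 = β ^ 2 + x := Real.sq_sqrt hD.le
  set s := Real.sqrt (β ^ 2 + x) with hsdef
  rw [← hsq]
  field_simp
  ring

/-- the differential inequality -/
private lemma der_le {e : ℕ} (he : 4 ≤ e) {a β x : ℝ} (ha : 0 < a) (hβ : 0 ≤ β) (hx : 0 < x) :
    e * rayLen β x ^ (e - 1) / (4 * (β ^ 2 + x)) -
        rayLen β x ^ e / (4 * (β ^ 2 + x) * Real.sqrt (β ^ 2 + x)) ≤
      a * rayDer e β x + rayMax e a := by
  have he' : (4 : ℝ) ≤ e := by exact_mod_cast he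
  have hD : 0 < β ^ 2 + x := by positivity
  have hs : 0 < Real.sqrt (β ^ 2 + x) := Real.sqrt_pos.2 hD
  have hsq : Real.sqrt (β ^ 2 + x) ^ 2 = β ^ 2 + x := Real.sq_sqrt hD.le
  have hβs : β < Real.sqrt (β ^ 2 + x) := by
    rw [Real.lt_sqrt hβ]
    linarith
  have hr0 : rayLen β x = Real.sqrt (β ^ 2 + x) - β := by
    unfold rayLen
    rw [max_eq_left hx.le]
  have hP : rayDer e β x = rayLen β x ^ e / (2 * Real.sqrt (β ^ 2 + x)) := by
    unfold rayDer
    rw [max_eq_left hx.le]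
  rw [hP]
  set s := Real.sqrt (β ^ 2 + x) with hsdef
  rw [← hsq]
  set r := rayLen β x with hr
  have hrpos : 0 < r := by rw [hr0]; linarith
  have hrs : r ≤ s := by rw [hr0]; linarith
  have h1 := max_pow he ha hrpos
  have hM := rayMax_nonneg (e := e) (by omega) ha
  obtain ⟨j, rfl⟩ : ∃ j, e = j + 3 := ⟨e - 3, by omega⟩
  have e1 : j + 3 - 1 = j + 2 := by omega
  have e2 : j + 3 - 3 = j := by omega
  rw [e1, e2] at h1
  rw [e1]
  push_cast at h1 he' ⊢
  -- the quotient
  set l := r / s with hl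
  have hl0 : 0 < l := div_pos hrpos hs
  have hl1 : l ≤ 1 := (div_le_one hs).2 hrs
  have f1 : ((j : ℝ) + 3) * r ^ (j + 2) / (4 * s ^ 2) = ((j : ℝ) + 3) / 4 * l ^ 2 * r ^ j := by
    rw [hl]
    field_simp
    ring
  have f2 : r ^ (j + 3) / (4 * s ^ 2 * s) = l ^ 3 / 4 * r ^ j := by
    rw [hl]
    field_simp
    ring
  have f3 : a * (r ^ (j + 3) / (2 * s)) = l / 2 * (a * r ^ (j + 2)) := by
    rw [hl]
    field_simp
    ring
  rw [f1, f2, f3]
  have hrj : 0 < r ^ j := pow_pos hrpos j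
  -- `(e l² - l³)/4 ≤ l (e - 1)/4`
  have g1 : ((j : ℝ) + 3) / 4 * l ^ 2 - l ^ 3 / 4 ≤ l / 2 * (((j : ℝ) + 2) / 2) := by
    have g2 : 0 ≤ l * ((1 - l) * ((j : ℝ) + 2 - l)) :=
      mul_nonneg hl0.le (mul_nonneg (by linarith) (by linarith))
    nlinarith
  have g3 : (((j : ℝ) + 3) / 4 * l ^ 2 - l ^ 3 / 4) * r ^ j ≤
      l / 2 * (((j : ℝ) + 2) / 2) * r ^ j := mul_le_mul_of_nonneg_right g1 hrj.le
  have g4 : l / 2 * (((j : ℝ) + 3 - 1) / 2 * r ^ j - a * r ^ (j + 2)) ≤
      l / 2 * (2 * rayMax (j + 3) a) := mul_le_mul_of_nonneg_left h1 (by positivity)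
  have g5 : l * rayMax (j + 3) a ≤ 1 * rayMax (j + 3) a := mul_le_mul_of_nonneg_right hl1 hM
  nlinarith

/-- continuity -/
theorem continuous_rayDer {e : ℕ} (he : 2 ≤ e) {β : ℝ} (hβ : 0 ≤ β) : Continuous (rayDer e β) := by
  have hc : Continuous fun x : ℝ => Real.sqrt (β ^ 2 + max x 0) := by fun_prop
  rcases hβ.eq_or_lt with h0 | h0
  · subst h0
    have h1 : rayDer e 0 = fun x => Real.sqrt (0 ^ 2 + max x 0) ^ (e - 1) / 2 := by
      funext x
      unfold rayDer rayLen
      rw [sub_zero]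
      set s := Real.sqrt (0 ^ 2 + max x 0) with hs
      obtain ⟨j, rfl⟩ : ∃ j, e = j + 2 := ⟨e - 2, by omega⟩
      have : j + 2 - 1 = j + 1 := by omega
      rw [this]
      rcases eq_or_ne s 0 with hz | hz
      · rw [hz]
        simp
      · field_simp
        ring
    rw [h1]
    exact (hc.pow _).div_const _
  · unfold rayDer rayLen
    refine Continuous.div ((hc.sub continuous_const).pow _) (continuous_const.mul hc) ?_
    intro x
    have : 0 < Real.sqrt (β ^ 2 + max x 0) :=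
      Real.sqrt_pos.2 (by have := le_max_right x 0; positivity)
    positivity

/-- the integrated differential inequality, nonnegative arguments -/
private lemma der_shift_nonneg {e : ℕ} (he : 4 ≤ e) {a β x h : ℝ} (ha : 0 < a) (hβ : 0 ≤ β)
    (hx : 0 ≤ x) (hh : 0 ≤ h) :
    rayDer e β (x + h) ≤ Real.exp (a * h) * rayDer e β x +
      rayMax e a * ((Real.exp (a * h) - 1) / a) := by
  set M := rayMax e a with hM
  have hc := continuous_rayDer (e := e) (by omega) hβ
  have hanti : AntitoneOn (fun y : ℝ => Real.exp (-a * y) * (rayDer e β y + M / a)) (Ici 0) := by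
    refine antitoneOn_of_deriv_nonpos (convex_Ici 0) ?_ ?_ ?_
    · exact ((by fun_prop : Continuous fun y : ℝ => Real.exp (-a * y)).mul
        (hc.add continuous_const)).continuousOn
    · intro y hy
      rw [interior_Ici] at hy
      have h1 : HasDerivAt (fun y : ℝ => Real.exp (-a * y)) (Real.exp (-a * y) * (-a * 1)) y :=
        ((hasDerivAt_id y).const_mul (-a)).exp
      exact (h1.mul ((hasDerivAt_rayDer (e := e) (β := β) hy).add_const (M / a))).differentiableAt.differentiableWithinAt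
    · intro y hy
      rw [interior_Ici] at hy
      have h1 : HasDerivAt (fun y : ℝ => Real.exp (-a * y)) (Real.exp (-a * y) * (-a * 1)) y :=
        ((hasDerivAt_id y).const_mul (-a)).exp
      have h2 := h1.mul ((hasDerivAt_rayDer (e := e) (β := β) hy).add_const (M / a))
      have h3 : deriv (fun y : ℝ => Real.exp (-a * y) * (rayDer e β y + M / a)) y = _ := h2.deriv
      rw [h3]
      have h4 := der_le he ha hβ hy
      have h5 : 0 < Real.exp (-a * y) := Real.exp_pos _
      have h6 : a * (M / a) = M := by field_simp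
      have h7 : Real.exp (-a * y) * (-a * 1) * (rayDer e β y + M / a) +
          Real.exp (-a * y) * (e * rayLen β y ^ (e - 1) / (4 * (β ^ 2 + y)) -
            rayLen β y ^ e / (4 * (β ^ 2 + y) * Real.sqrt (β ^ 2 + y))) =
          Real.exp (-a * y) * ((e * rayLen β y ^ (e - 1) / (4 * (β ^ 2 + y)) -
            rayLen β y ^ e / (4 * (β ^ 2 + y) * Real.sqrt (β ^ 2 + y))) -
              (a * rayDer e β y + a * (M / a))) := by ring
      rw [h7, h6]
      exact mul_nonpos_of_nonneg_of_nonpos h5.le (by linarith)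
  have h1 := hanti (mem_Ici.2 hx) (mem_Ici.2 (by linarith : 0 ≤ x + h)) (by linarith)
  simp only at h1
  have h2 : Real.exp (-a * x) = Real.exp (-a * (x + h)) * Real.exp (a * h) := by
    rw [← Real.exp_add]
    congr 1
    ring
  rw [h2, mul_assoc] at h1
  have h3 := le_of_mul_le_mul_left h1 (Real.exp_pos _)
  have h4 : M * ((Real.exp (a * h) - 1) / a) = Real.exp (a * h) * (M / a) - M / a := by ring
  rw [h4]
  linarith

/-- the integrated differential inequality -/
theorem der_shift {e : ℕ} (he : 4 ≤ e) {a β x h : ℝ} (ha : 0 < a) (hβ : 0 ≤ β) (hh : 0 ≤ h) :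
    rayDer e β (x + h) ≤ Real.exp (a * h) * rayDer e β x +
      rayMax e a * ((Real.exp (a * h) - 1) / a) := by
  have hM := rayMax_nonneg (e := e) (by omega) ha
  have hz : ∀ y : ℝ, y ≤ 0 → rayDer e β y = 0 := by
    intro y hy
    unfold rayDer
    rw [rayLen_of_nonpos hβ hy, zero_pow (by omega), zero_div]
  have hE : ∀ u : ℝ, 0 ≤ u → 0 ≤ (Real.exp (a * u) - 1) / a := by
    intro u hu
    refine div_nonneg ?_ ha.le
    have : (1 : ℝ) ≤ Real.exp (a * u) := Real.one_le_exp (by positivity)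
    linarith
  rcases le_or_gt 0 x with hx | hx
  · exact der_shift_nonneg he ha hβ hx hh
  · rw [hz x hx.le, mul_zero, zero_add]
    rcases le_or_gt (x + h) 0 with hxh | hxh
    · rw [hz _ hxh]
      exact mul_nonneg hM (hE h hh)
    · have h1 := der_shift_nonneg he ha hβ le_rfl hxh.le
      rw [zero_add, hz 0 le_rfl, mul_zero, zero_add] at h1
      refine h1.trans (mul_le_mul_of_nonneg_left ?_ hM)
      refine div_le_div_of_nonneg_right ?_ ha.le
      have : Real.exp (a * (x + h)) ≤ Real.exp (a * h) :=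
        Real.exp_le_exp.2 (mul_le_mul_of_nonneg_left (by linarith) ha.le)
      linarith

/-- the integral of `rayDer` -/
theorem integral_rayDer {e : ℕ} (he : 2 ≤ e) {β x : ℝ} (hβ : 0 ≤ β) :
    ∫ s in (0 : ℝ)..x, rayDer e β s = rayLen β x ^ (e + 1) / (e + 1) := by
  have hc := continuous_rayDer (e := e) he hβ
  have he1 : ((e : ℝ) + 1) ≠ 0 := by positivity
  rcases le_or_gt 0 x with hx | hx
  · have hcl : Continuous fun y : ℝ => rayLen β y := by
      unfold rayLen
      fun_prop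
    have h1 := intervalIntegral.integral_eq_sub_of_hasDerivAt_of_le hx
      (f := fun y => rayLen β y ^ (e + 1) / (e + 1)) (f' := rayDer e β)
      ((hcl.pow _).div_const _).continuousOn ?_ (hc.intervalIntegrable _ _)
    · rw [h1, rayLen_of_nonpos hβ le_rfl, zero_pow (by omega), zero_div, sub_zero]
    · intro y hy
      have hD : 0 < β ^ 2 + y := by have := hy.1; positivity
      have hs : 0 < Real.sqrt (β ^ 2 + y) := Real.sqrt_pos.2 hD
      have h1 : HasDerivAt (fun y : ℝ => Real.sqrt (β ^ 2 + y)) (1 / (2 * Real.sqrt (β ^ 2 + y))) y :=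
        ((hasDerivAt_id y).const_add (β ^ 2)).sqrt hD.ne'
      have h2 : HasDerivAt (fun y : ℝ => (Real.sqrt (β ^ 2 + y) - β) ^ (e + 1) / ((e : ℝ) + 1))
          (((e + 1 : ℕ) : ℝ) * (Real.sqrt (β ^ 2 + y) - β) ^ (e + 1 - 1) *
            (1 / (2 * Real.sqrt (β ^ 2 + y))) / ((e : ℝ) + 1)) y :=
        ((h1.sub_const β).pow (e + 1)).div_const _
      have h3 : (fun y : ℝ => (Real.sqrt (β ^ 2 + y) - β) ^ (e + 1) / ((e : ℝ) + 1)) =ᶠ[𝓝 y]
          fun y => rayLen β y ^ (e + 1) / (e + 1) := by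
        filter_upwards [lt_mem_nhds hy.1] with z hz
        unfold rayLen
        rw [max_eq_left hz.le]
      refine (h2.congr_of_eventuallyEq h3.symm).congr_deriv ?_
      unfold rayDer rayLen
      rw [max_eq_left hy.1.le]
      push_cast
      field_simp
  · have h1 : ∫ s in (0 : ℝ)..x, rayDer e β s = ∫ s in (0 : ℝ)..x, (0 : ℝ) := by
      refine intervalIntegral.integral_congr fun s hs => ?_
      rw [uIcc_of_ge hx.le] at hs
      unfold rayDer
      rw [rayLen_of_nonpos hβ hs.2, zero_pow (by omega), zero_div]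
    rw [h1, rayLen_of_nonpos hβ hx.le, zero_pow (by omega), zero_div]
    simp

/-- the unobstructed ray -/
theorem ray_diff {e : ℕ} (he : 4 ≤ e) {a β x h : ℝ} (ha : 0 < a) (hβ : 0 ≤ β) (hh : 0 ≤ h) :
    rayLen β (x + h) ^ (e + 1) / (e + 1) - rayLen β x ^ (e + 1) / (e + 1) ≤
      Real.exp (a * h) *
        (rayLen β x ^ (e + 1) / (e + 1) - rayLen β (x - h) ^ (e + 1) / (e + 1)) +
      h * (rayMax e a * ((Real.exp (a * h) - 1) / a)) := by
  have hc := continuous_rayDer (e := e) (by omega) hβ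
  have hi : ∀ u v : ℝ, IntervalIntegrable (rayDer e β) volume u v := fun u v =>
    hc.intervalIntegrable u v
  have h1 : ∀ u v : ℝ, rayLen β v ^ (e + 1) / (e + 1) - rayLen β u ^ (e + 1) / (e + 1) =
      ∫ s in u..v, rayDer e β s := by
    intro u v
    rw [← integral_rayDer (by omega) hβ, ← integral_rayDer (by omega) hβ,
      intervalIntegral.integral_interval_sub_left (hi _ _) (hi _ _)]
  rw [h1, h1]
  have h2 : ∫ s in x..(x + h), rayDer e β s = ∫ s in (x - h)..x, rayDer e β (s + h) := by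
    rw [intervalIntegral.integral_comp_add_right (fun s => rayDer e β s) h, sub_add_cancel]
  rw [h2]
  have h3 : ∫ s in (x - h)..x, rayDer e β (s + h) ≤
      ∫ s in (x - h)..x, (Real.exp (a * h) * rayDer e β s +
        rayMax e a * ((Real.exp (a * h) - 1) / a)) := by
    refine intervalIntegral.integral_mono_on (by linarith) ?_ ?_ fun s _ => der_shift he ha hβ hh
    · exact (hc.comp (continuous_id.add continuous_const)).intervalIntegrable _ _
    · exact ((continuous_const.mul hc).add continuous_const).intervalIntegrable _ _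
  refine h3.trans (le_of_eq ?_)
  have h4 := intervalIntegral.integral_add (μ := volume) (a := x - h) (b := x)
    (f := fun s => Real.exp (a * h) * rayDer e β s)
    (g := fun _ => rayMax e a * ((Real.exp (a * h) - 1) / a))
    ((continuous_const.mul hc).intervalIntegrable _ _)
    (continuous_const.intervalIntegrable _ _)
  rw [h4, intervalIntegral.integral_const_mul, intervalIntegral.integral_const, smul_eq_mul]
  ring

end Pool.Agent.Helper62.HC
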