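import Mathlib
import Pool.Agent.Helper62.HC.Ray
import Pool.Agent.Helper62.HC.Ball
import Pool.Agent.Helper74.ISC.Polar

/-!
# The volume of a convex set in balls

For a convex set `C` in a space of dimension `k ≥ 5`, `m s = volume (C ∩ {‖y‖² < s})`, `a > 0`, `h ≥ 0`, `θ = exp (a h)`:
`m (t + h) - m t ≤ θ (m t - m (t - h)) + cellErr k a h`, by polar coordinates centred at the point of `C` nearest
to `0`, ray by ray.
-/

namespace Pool.Agent.Helper62.HC

open MeasureTheory Set Module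
open Pool.Agent.Helper74.ISC

private lemma ray_set {β c t : ℝ} (hβ : 0 ≤ β) :
    {d : ℝ | 0 < d ∧ c + 2 * β * d + d ^ 2 < t} = Ioo 0 (rayLen β (t - c)) := by
  ext d
  simp only [mem_ofPred_eq, mem_Ioo]
  unfold rayLen
  constructor
  · rintro ⟨h0, h1⟩
    refine ⟨h0, ?_⟩
    have h2 : d + β < Real.sqrt (β ^ 2 + max (t - c) 0) := by
      rw [Real.lt_sqrt (by linarith)]
      have := le_max_left (t - c) 0
      nlinarith
    linarith
  · rintro ⟨h0, h1⟩
    refine ⟨h0, ?_⟩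
    have h2 : d + β < Real.sqrt (β ^ 2 + max (t - c) 0) := by linarith
    rw [Real.lt_sqrt (by linarith)] at h2
    have h3 : 0 < d ^ 2 + 2 * β * d := by positivity
    have h4 : d ^ 2 + 2 * β * d < max (t - c) 0 := by nlinarith
    rcases le_or_gt (t - c) 0 with h5 | h5
    · rw [max_eq_right h5] at h4
      linarith
    · rw [max_eq_left h5.le] at h4
      linarith

private lemma lint_pow {e : ℕ} {R : ℝ} (hR : 0 ≤ R) :
    ∫⁻ d in Ioo 0 R, ENNReal.ofReal (d ^ e) = ENNReal.ofReal (R ^ (e + 1) / (e + 1)) := by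
  have h1 : IntegrableOn (fun d : ℝ => d ^ e) (Ioo 0 R) :=
    ((continuous_pow e).continuousOn.integrableOn_compact isCompact_Icc).mono_set
      (Ioo_subset_Icc_self)
  rw [← ofReal_integral_eq_lintegral_ofReal h1]
  · congr 1
    rw [← integral_Ioc_eq_integral_Ioo, ← intervalIntegral.integral_of_le hR, integral_pow,
      zero_pow (by omega), sub_zero]
  · rw [Filter.EventuallyLE, ae_restrict_iff' measurableSet_Ioo]
    exact Filter.Eventually.of_forall fun d hd => pow_nonneg hd.1.le e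

/-- the error of a ray -/
private noncomputable def rayErr (e : ℕ) (a h : ℝ) : ℝ :=
  h * (rayMax e a * ((Real.exp (a * h) - 1) / a))

private lemma rayErr_nonneg {e : ℕ} (he : 3 ≤ e) {a h : ℝ} (ha : 0 < a) (hh : 0 ≤ h) :
    0 ≤ rayErr e a h := by
  have h1 := rayMax_nonneg he ha
  have h2 : (1 : ℝ) ≤ Real.exp (a * h) := Real.one_le_exp (by positivity)
  unfold rayErr
  exact mul_nonneg hh (mul_nonneg h1 (div_nonneg (by linarith) ha.le))

private theorem ray_mass {e : ℕ} (he : 4 ≤ e) {a β c t h : ℝ} (ha : 0 < a) (hβ : 0 ≤ β)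
    (hh : 0 ≤ h) {S : Set ℝ} (hdown : ∀ d ∈ S, ∀ d', 0 < d' → d' ≤ d → d' ∈ S) :
    (∫⁻ d in {d : ℝ | 0 < d ∧ c + 2 * β * d + d ^ 2 < t + h ∧ d ∈ S}, ENNReal.ofReal (d ^ e)) +
        ENNReal.ofReal (Real.exp (a * h)) *
          (∫⁻ d in {d : ℝ | 0 < d ∧ c + 2 * β * d + d ^ 2 < t - h ∧ d ∈ S},
            ENNReal.ofReal (d ^ e)) ≤
      (1 + ENNReal.ofReal (Real.exp (a * h))) *
        (∫⁻ d in {d : ℝ | 0 < d ∧ c + 2 * β * d + d ^ 2 < t ∧ d ∈ S}, ENNReal.ofReal (d ^ e)) +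
      ENNReal.ofReal (rayErr e a h) := by
  by_cases hobs : ∃ d, 0 < d ∧ c + 2 * β * d + d ^ 2 < t ∧ d ∉ S
  · obtain ⟨d, hd0, hdt, hdS⟩ := hobs
    have h1 : {d : ℝ | 0 < d ∧ c + 2 * β * d + d ^ 2 < t + h ∧ d ∈ S} ⊆
        {d : ℝ | 0 < d ∧ c + 2 * β * d + d ^ 2 < t ∧ d ∈ S} := by
      rintro d' ⟨h0, _, h2⟩
      refine ⟨h0, ?_, h2⟩
      have h3 : d' < d := by
        by_contra hcon
        exact hdS (hdown d' h2 d hd0 (not_lt.1 hcon))
      have h4 : c + 2 * β * d' + d' ^ 2 ≤ c + 2 * β * d + d ^ 2 := by nlinarith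
      linarith
    have h2 : {d : ℝ | 0 < d ∧ c + 2 * β * d + d ^ 2 < t - h ∧ d ∈ S} ⊆
        {d : ℝ | 0 < d ∧ c + 2 * β * d + d ^ 2 < t ∧ d ∈ S} := by
      rintro d' ⟨h0, h1, h2⟩
      exact ⟨h0, by linarith, h2⟩
    refine (add_le_add (lintegral_mono_set h1) (mul_le_mul' le_rfl (lintegral_mono_set h2))).trans ?_
    rw [add_mul, one_mul]
    exact le_self_add
  · push Not at hobs
    have hU : ∀ s : ℝ, ∫⁻ d in {d : ℝ | 0 < d ∧ c + 2 * β * d + d ^ 2 < s},
        ENNReal.ofReal (d ^ e) = ENNReal.ofReal (rayLen β (s - c) ^ (e + 1) / (e + 1)) := by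
      intro s
      rw [ray_set hβ, lint_pow (rayLen_nonneg hβ _)]
    have h1 : {d : ℝ | 0 < d ∧ c + 2 * β * d + d ^ 2 < t ∧ d ∈ S} =
        {d : ℝ | 0 < d ∧ c + 2 * β * d + d ^ 2 < t} := by
      ext d
      simp only [mem_ofPred_eq]
      exact ⟨fun h => ⟨h.1, h.2.1⟩, fun h => ⟨h.1, h.2, hobs d h.1 h.2⟩⟩
    have h2 : ∀ s : ℝ, ∫⁻ d in {d : ℝ | 0 < d ∧ c + 2 * β * d + d ^ 2 < s ∧ d ∈ S},
        ENNReal.ofReal (d ^ e) ≤ ENNReal.ofReal (rayLen β (s - c) ^ (e + 1) / (e + 1)) := by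
      intro s
      rw [← hU s]
      exact lintegral_mono_set fun d hd => ⟨hd.1, hd.2.1⟩
    refine (add_le_add (h2 _) (mul_le_mul' le_rfl (h2 _))).trans ?_
    rw [h1, hU]
    have hq : ∀ s : ℝ, 0 ≤ rayLen β (s - c) ^ (e + 1) / (e + 1) := fun s =>
      div_nonneg (pow_nonneg (rayLen_nonneg hβ _) _) (by positivity)
    have h3 := ray_diff (x := t - c) he ha hβ hh
    have hθ : 0 ≤ Real.exp (a * h) := (Real.exp_pos _).le
    have hY := rayErr_nonneg (e := e) (by omega) ha hh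
    rw [show (1 : ENNReal) = ENNReal.ofReal 1 by simp, ← ENNReal.ofReal_mul hθ,
      ← ENNReal.ofReal_add (hq _) (mul_nonneg hθ (hq _)), ← ENNReal.ofReal_add zero_le_one hθ,
      ← ENNReal.ofReal_mul (by positivity), ← ENNReal.ofReal_add
        (mul_nonneg (by positivity) (hq _)) hY]
    apply ENNReal.ofReal_le_ofReal
    unfold rayErr
    rw [show t + h - c = t - c + h by ring, show t - h - c = t - c - h by ring]
    linarith

/-- the error term of a cell -/
noncomputable def cellErr (k : ℕ) (a h : ℝ) : ℝ :=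
  k * ballVol k * (h * (rayMax (k - 1) a * ((Real.exp (a * h) - 1) / a)))

theorem cellErr_nonneg {k : ℕ} (hk : 5 ≤ k) {a h : ℝ} (ha : 0 < a) (hh : 0 ≤ h) :
    0 ≤ cellErr k a h := by
  have h1 := ballVol_pos k
  have h2 := rayErr_nonneg (e := k - 1) (by omega) ha hh
  unfold rayErr at h2
  unfold cellErr
  positivity

section aux

variable {V : Type*} [NormedAddCommGroup V] [InnerProductSpace ℝ V]
    [FiniteDimensional ℝ V] [MeasurableSpace V] [BorelSpace V]

private lemma closed_gain {k : ℕ} (hV : finrank ℝ V = k) (hk : 5 ≤ k) {D : Set V}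
    (hC : Convex ℝ D) (hcl : IsClosed D) (hne : D.Nonempty) {a h : ℝ} (ha : 0 < a)
    (hh : 0 ≤ h) (t : ℝ) :
    volume (D ∩ {y : V | ‖y‖ ^ 2 < t + h}) +
        ENNReal.ofReal (Real.exp (a * h)) * volume (D ∩ {y : V | ‖y‖ ^ 2 < t - h}) ≤
      (1 + ENNReal.ofReal (Real.exp (a * h))) * volume (D ∩ {y : V | ‖y‖ ^ 2 < t}) +
        ENNReal.ofReal (cellErr k a h) := by
  have hnt : Nontrivial V := Module.nontrivial_of_finrank_pos (R := ℝ) (by omega)
  have hD : MeasurableSet D := hcl.measurableSet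
  obtain ⟨p, hp, hpn⟩ := exists_norm_eq_iInf_of_complete_convex hne hcl.isComplete hC 0
  have hpD : ∀ y ∈ D, ‖p‖ ^ 2 ≤ inner ℝ p y := by
    intro y hy
    have h1 := (norm_eq_iInf_iff_real_inner_le_zero hC hp).1 hpn y hy
    rw [zero_sub, inner_neg_left, inner_sub_right, real_inner_self_eq_norm_sq] at h1
    linarith
  have hmeas : ∀ s : ℝ, MeasurableSet (D ∩ {y : V | ‖y‖ ^ 2 < s}) := fun s =>
    hD.inter (measurableSet_lt (measurable_norm.pow_const 2) measurable_const)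
  set G : ENNReal := ENNReal.ofReal (Real.exp (a * h)) with hG
  rw [volume_eq_polar p (hmeas (t + h)), volume_eq_polar p (hmeas (t - h)),
    volume_eq_polar p (hmeas t), show finrank ℝ V - 1 = k - 1 by rw [hV],
    ← lintegral_const_mul' _ _ ENNReal.ofReal_ne_top,
    ← lintegral_const_mul' _ _ (ENNReal.add_ne_top.2 ⟨ENNReal.one_ne_top, ENNReal.ofReal_ne_top⟩)]
  have hball : volume (Metric.ball (0 : V) 1) = ENNReal.ofReal (ballVol k) := by
    have h1 := volume_norm_sq_lt (V := V) hV (by omega) 1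
    have h2 : {y : V | ‖y‖ ^ 2 < 1} = Metric.ball 0 1 := by
      ext y
      simp only [mem_ofPred_eq, mem_ball_zero_iff]
      exact sq_lt_one_iff₀ (norm_nonneg y)
    rw [h2] at h1
    rw [h1]
    unfold fullVol
    rw [max_eq_left zero_le_one, Real.one_rpow, mul_one]
  have herr : ENNReal.ofReal (cellErr k a h) =
      ∫⁻ _ : Metric.sphere (0 : V) 1, ENNReal.ofReal (rayErr (k - 1) a h)
        ∂(volume : Measure V).toSphere := by
    rw [lintegral_const, Measure.toSphere_apply_univ, hV, hball,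
      show ((k : ℕ) : ENNReal) = ENNReal.ofReal (k : ℝ) by simp,
      ← ENNReal.ofReal_mul (by positivity),
      ← ENNReal.ofReal_mul (rayErr_nonneg (by omega) ha hh)]
    congr 1
    unfold cellErr rayErr
    ring
  rw [herr, ← lintegral_add_right _ measurable_const]
  refine (le_lintegral_add _ _).trans (lintegral_mono fun θ => ?_)
  have hθ : ‖(θ : V)‖ = 1 := mem_sphere_zero_iff_norm.1 θ.2
  have hnorm : ∀ d : ℝ, ‖p + d • (θ : V)‖ ^ 2 = ‖p‖ ^ 2 + 2 * inner ℝ p (θ : V) * d + d ^ 2 := by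
    intro d
    rw [norm_add_sq_real, inner_smul_right, norm_smul, hθ, mul_one, Real.norm_eq_abs, sq_abs]
    ring
  have hin : ∀ d : ℝ, inner ℝ p (p + d • (θ : V)) = ‖p‖ ^ 2 + d * inner ℝ p (θ : V) := by
    intro d
    rw [inner_add_right, inner_smul_right, real_inner_self_eq_norm_sq]
  have hset : ∀ s : ℝ, {d : ℝ | 0 < d ∧ p + d • (θ : V) ∈ D ∩ {y : V | ‖y‖ ^ 2 < s}} =
      {d : ℝ | 0 < d ∧ ‖p‖ ^ 2 + 2 * inner ℝ p (θ : V) * d + d ^ 2 < s ∧
        d ∈ {d : ℝ | p + d • (θ : V) ∈ D}} := by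
    intro s
    ext d
    simp only [mem_ofPred_eq, mem_inter_iff, hnorm]
    tauto
  simp only [hset]
  rcases lt_or_ge (inner ℝ p (θ : V)) 0 with hneg | hpos
  · have hem : ∀ s : ℝ, {d : ℝ | 0 < d ∧ ‖p‖ ^ 2 + 2 * inner ℝ p (θ : V) * d + d ^ 2 < s ∧
        d ∈ {d : ℝ | p + d • (θ : V) ∈ D}} = ∅ := by
      intro s
      rw [Set.eq_empty_iff_forall_notMem]
      rintro d ⟨hd, _, h2⟩
      have h3 := hpD _ h2
      rw [hin] at h3
      have := mul_neg_of_pos_of_neg hd hneg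
      linarith
    rw [hem, hem, hem]
    simp
  · refine ray_mass (by omega) ha hpos hh ?_
    intro d hd d' hd'0 hdd'
    have hd0 : 0 < d := lt_of_lt_of_le hd'0 hdd'
    have h1 := hC hp hd (sub_nonneg.2 ((div_le_one hd0).2 hdd')) (div_nonneg hd'0.le hd0.le)
      (sub_add_cancel 1 (d' / d))
    have h2 : (1 - d' / d) • p + (d' / d) • (p + d • (θ : V)) = p + d' • (θ : V) := by
      rw [smul_add, smul_smul, div_mul_cancel₀ d' hd0.ne', ← add_assoc, ← add_smul,
        sub_add_cancel, one_smul]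
    rw [h2] at h1
    exact h1

end aux

theorem convex_gain {V : Type*} [NormedAddCommGroup V] [InnerProductSpace ℝ V]
    [FiniteDimensional ℝ V] [MeasurableSpace V] [BorelSpace V] {k : ℕ} (hV : finrank ℝ V = k)
    (hk : 5 ≤ k) {C : Set V} (hC : Convex ℝ C) {a h : ℝ} (ha : 0 < a) (hh : 0 ≤ h) (t : ℝ) :
    volume (C ∩ {y : V | ‖y‖ ^ 2 < t + h}) +
        ENNReal.ofReal (Real.exp (a * h)) * volume (C ∩ {y : V | ‖y‖ ^ 2 < t - h}) ≤
      (1 + ENNReal.ofReal (Real.exp (a * h))) * volume (C ∩ {y : V | ‖y‖ ^ 2 < t}) +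
        ENNReal.ofReal (cellErr k a h) := by
  rcases C.eq_empty_or_nonempty with rfl | hne
  · simp
  have hcl : ∀ s : ℝ, volume (C ∩ {y : V | ‖y‖ ^ 2 < s}) =
      volume (closure C ∩ {y : V | ‖y‖ ^ 2 < s}) := by
    intro s
    apply le_antisymm (measure_mono (inter_subset_inter_left _ subset_closure))
    have h1 : closure C ∩ {y : V | ‖y‖ ^ 2 < s} ⊆
        (C ∩ {y : V | ‖y‖ ^ 2 < s}) ∪ frontier C := by
      rintro y ⟨hy, hys⟩
      by_cases hyC : y ∈ C
      · exact Or.inl ⟨hyC, hys⟩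
      · exact Or.inr ⟨hy, fun h => hyC (interior_subset h)⟩
    refine (measure_mono h1).trans ((measure_union_le _ _).trans ?_)
    rw [hC.addHaar_frontier (volume : Measure V), add_zero]
  rw [hcl, hcl, hcl]
  exact closed_gain hV hk hC.closure isClosed_closure hne.closure ha hh t

end Pool.Agent.Helper62.HC
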