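import Mathlib
import Pool.Agent.Helper62.HC.Shell
import Pool.Agent.Helper74.ISC.Cell

/-!
# The cell lemma (layer cake)
-/

namespace Pool.Agent.Helper62.HC

open MeasureTheory Set Module
open Pool.Agent.Helper74.ISC

private theorem cellMass_eq {N : Type*} [NormedAddCommGroup N] [InnerProductSpace ℝ N]
    [FiniteDimensional ℝ N] [MeasurableSpace N] [BorelSpace N] {C : Set N}
    (hC : MeasurableSet C) {f : N → ℝ} (hf : Measurable f)
    (hf0 : ∀ y ∈ C, 0 ≤ f y) (τ : ℝ) :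
    cellMass 0 C f τ = ∫⁻ l in Ioi (0 : ℝ),
      volume ({y | y ∈ C ∧ l < f y} ∩ {y : N | ‖y‖ ^ 2 < τ}) := by
  unfold cellMass
  rw [lint_zero]
  have hS : {y : N | y ∈ C ∧ ‖y‖ ^ 2 + ‖(0 : EuclideanSpace ℝ (Fin 0))‖ ^ 2 < τ} =
      C ∩ {y : N | ‖y‖ ^ 2 < τ} := by
    ext y
    simp
  have hSm : MeasurableSet (C ∩ {y : N | ‖y‖ ^ 2 < τ}) :=
    hC.inter (measurableSet_lt (measurable_norm.pow_const 2) measurable_const)
  rw [hS, lintegral_eq_lintegral_meas_lt]
  · apply lintegral_congr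
    intro l
    rw [Measure.restrict_apply (measurableSet_lt measurable_const hf)]
    congr 1
    ext y
    simp only [mem_inter_iff, mem_ofPred_eq]
    tauto
  · rw [Filter.EventuallyLE, ae_restrict_iff' hSm]
    exact Filter.Eventually.of_forall fun y hy => hf0 y hy.1
  · exact hf.aemeasurable

theorem cell_gain {N : Type*} [NormedAddCommGroup N] [InnerProductSpace ℝ N]
    [FiniteDimensional ℝ N] [MeasurableSpace N] [BorelSpace N] {k : ℕ} (hN : finrank ℝ N = k)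
    (hk : 5 ≤ k) {C : Set N} (hC : MeasurableSet C) {f : N → ℝ} (hf : Measurable f) {Λ : ℝ}
    (hf0 : ∀ y ∈ C, 0 ≤ f y) (hfΛ : ∀ y ∈ C, f y ≤ Λ)
    (hquasi : ∀ l : ℝ, 0 ≤ l → Convex ℝ {y | y ∈ C ∧ l < f y}) {a h : ℝ} (ha : 0 < a)
    (hh : 0 ≤ h) (t : ℝ) :
    cellMass 0 C f (t + h) + ENNReal.ofReal (Real.exp (a * h)) * cellMass 0 C f (t - h) ≤
      (1 + ENNReal.ofReal (Real.exp (a * h))) * cellMass 0 C f t +
        ENNReal.ofReal (cellErr k a h * Λ) := by
  rw [cellMass_eq hC hf hf0, cellMass_eq hC hf hf0, cellMass_eq hC hf hf0]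
  set W : ℝ → ℝ → ENNReal := fun s l =>
      volume ({y | y ∈ C ∧ l < f y} ∩ {y : N | ‖y‖ ^ 2 < s}) with hW
  set G : ENNReal := ENNReal.ofReal (Real.exp (a * h)) with hG
  set X : ℝ := cellErr k a h with hX
  have hX0 : 0 ≤ X := cellErr_nonneg hk ha hh
  change (∫⁻ l in Ioi (0 : ℝ), W (t + h) l) + G * (∫⁻ l in Ioi (0 : ℝ), W (t - h) l) ≤
    (1 + G) * (∫⁻ l in Ioi (0 : ℝ), W t l) + ENNReal.ofReal (X * Λ)
  have hmeas : ∀ s, Measurable (W s) := by
    intro s
    apply Antitone.measurable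
    intro a b hab
    apply measure_mono
    rintro z ⟨hz1, hz2⟩
    exact ⟨⟨hz1.1, lt_of_le_of_lt hab hz1.2⟩, hz2⟩
  have hpt : ∀ l ∈ Ioi (0 : ℝ), W (t + h) l + G * W (t - h) l ≤
      (1 + G) * W t l + (Ioc (0 : ℝ) Λ).indicator (fun _ => ENNReal.ofReal X) l := by
    intro l hl
    by_cases hlΛ : l ≤ Λ
    · rw [indicator_of_mem (show l ∈ Ioc (0 : ℝ) Λ from ⟨hl, hlΛ⟩)]
      exact convex_gain hN hk (hquasi l (le_of_lt hl)) ha hh t
    · have hz : ∀ s, W s l = 0 := by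
        intro s
        have hem : ({y | y ∈ C ∧ l < f y} ∩ {y : N | ‖y‖ ^ 2 < s}) = ∅ := by
          rw [Set.eq_empty_iff_forall_notMem]
          rintro z ⟨hz1, _⟩
          have := hfΛ _ hz1.1
          have h2 := hz1.2
          exact hlΛ (le_of_lt (lt_of_lt_of_le h2 this))
        simp only [hW]
        rw [hem, measure_empty]
      rw [hz, hz]
      simp
  rw [← lintegral_const_mul _ (hmeas _), ← lintegral_add_left (hmeas _)]
  calc ∫⁻ l in Ioi (0 : ℝ), (W (t + h) l + G * W (t - h) l)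
      ≤ ∫⁻ l in Ioi (0 : ℝ), ((1 + G) * W t l +
        (Ioc (0 : ℝ) Λ).indicator (fun _ => ENNReal.ofReal X) l) :=
        setLIntegral_mono' measurableSet_Ioi hpt
    _ = (1 + G) * (∫⁻ l in Ioi (0 : ℝ), W t l) + ∫⁻ l in Ioi (0 : ℝ),
        (Ioc (0 : ℝ) Λ).indicator (fun _ => ENNReal.ofReal X) l := by
        rw [lintegral_add_left ((hmeas t).const_mul (1 + G)), lintegral_const_mul _ (hmeas t)]
    _ ≤ _ := by
        refine add_le_add le_rfl ?_
        rw [lintegral_indicator measurableSet_Ioc, Measure.restrict_restrict measurableSet_Ioc,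
          lintegral_const, Measure.restrict_apply_univ]
        rw [ENNReal.ofReal_mul (p := X) (q := Λ) hX0]
        refine mul_le_mul' le_rfl ?_
        calc volume (Ioc (0 : ℝ) Λ ∩ Ioi 0) ≤ volume (Ioc (0 : ℝ) Λ) := measure_mono inter_subset_left
          _ = ENNReal.ofReal Λ := by rw [Real.volume_Ioc]; simp

end Pool.Agent.Helper62.HC
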