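import Mathlib
import Pool.Agent.Helper74.ISC.CellIneq
import Pool.Agent.Helper62.HC.Cell

/-!
# The modified second difference of the mass of one cell

Same proof as `Pool.Agent.Helper74.ISC.CellIneq`, in every codimension at least five and without extra
flat directions; the cell lemma is `cell_gain`.
-/

namespace Pool.Agent.Helper62.HC

open Module InnerProductSpace MeasureTheory Set Filter Topology
open Pool.Agent.Helper74.Iso
open Pool.Agent.Helper74.ISC
open scoped ContDiff ENNReal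

variable {E : Type*} [NormedAddCommGroup E] [InnerProductSpace ℝ E] [FiniteDimensional ℝ E]
  [MeasurableSpace E] [BorelSpace E]
variable {m : ℕ} {M B : Set E} {Φ : OpenPartialHomeomorph E E} {K : Submodule ℝ E}

/-- change of variables for an injective affine map between spaces of the same dimension -/
private theorem lintegral_affine {F G : Type*} [NormedAddCommGroup F] [InnerProductSpace ℝ F]
    [FiniteDimensional ℝ F] [MeasurableSpace F] [BorelSpace F] [NormedAddCommGroup G]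
    [InnerProductSpace ℝ G] [FiniteDimensional ℝ G] [MeasurableSpace G] [BorelSpace G]
    (Q : F →ₗ[ℝ] G) (hQ : Function.Injective Q) (hd : finrank ℝ F = finrank ℝ G) (a : G)
    {g : G → ℝ≥0∞} (hg : Measurable g) :
    (∫⁻ κ : F, g (a + Q κ)) * ENNReal.ofReal Q.normDet = ∫⁻ z : G, g z := by
  let bF : OrthonormalBasis (Fin (finrank ℝ G)) ℝ F :=
    (stdOrthonormalBasis ℝ F).reindex (finCongr hd)
  let I : F ≃ₗᵢ[ℝ] G := bF.equiv (stdOrthonormalBasis ℝ G) (Equiv.refl _)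
  let L : F →ₗ[ℝ] F := I.symm.toLinearEquiv.toLinearMap ∘ₗ Q
  have hL : ∀ κ, I (L κ) = Q κ := fun κ => I.apply_symm_apply (Q κ)
  have hLn : L.normDet = Q.normDet := by
    have h1 : L.normDet = LinearMap.normDet (I.symm.toLinearEquiv.toLinearMap) * Q.normDet :=
      LinearMap.normDet_comp_of_finrank_eq Q _ hd
    have h2 : LinearMap.normDet (I.symm.toLinearEquiv.toLinearMap) = 1 :=
      LinearIsometry.normDet_eq_one I.symm.toLinearIsometry
    rw [h1, h2, one_mul]
  have hLd : |LinearMap.det L| = Q.normDet := by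
    rw [← hLn, LinearMap.normDet_eq_abs_det]
  have hLi : Function.Injective L := by
    intro u v huv
    apply hQ
    rw [← hL, ← hL, huv]
  have hdet : LinearMap.det L ≠ 0 := by
    have h1 : LinearMap.ker L = ⊥ := LinearMap.ker_eq_bot.2 hLi
    have h2 : IsUnit (LinearMap.det L) := by
      rw [← LinearMap.isUnit_iff_isUnit_det]
      exact (LinearMap.isUnit_iff_ker_eq_bot L).2 h1
    exact h2.ne_zero
  have hmap := Measure.map_linearMap_addHaar_eq_smul_addHaar (volume : Measure F) hdet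
  have hg1 : Measurable fun u : F => g (a + I u) :=
    hg.comp (measurable_const.add I.continuous.measurable)
  have hLm : Measurable L := (LinearMap.continuous_of_finiteDimensional L).measurable
  have e1 : ∫⁻ κ : F, g (a + Q κ) = ENNReal.ofReal |(LinearMap.det L)⁻¹| *
      ∫⁻ u : F, g (a + I u) := by
    calc ∫⁻ κ : F, g (a + Q κ) = ∫⁻ κ : F, (fun u : F => g (a + I u)) (L κ) := by
          apply lintegral_congr
          intro κ
          simp only [hL]
      _ = ∫⁻ u : F, g (a + I u) ∂(Measure.map L volume) := (lintegral_map hg1 hLm).symm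
      _ = _ := by rw [hmap, lintegral_smul_measure, smul_eq_mul]
  have e2 : ∫⁻ u : F, g (a + I u) = ∫⁻ z : G, g z := by
    rw [I.measurePreserving.lintegral_comp (f := fun z => g (a + z))
      (hg.comp (measurable_const.add measurable_id))]
    exact lintegral_add_left_eq_self g a
  rw [e1, e2, ← hLd, mul_right_comm, ← ENNReal.ofReal_mul (abs_nonneg _), ← abs_mul,
    inv_mul_cancel₀ hdet]
  simp

theorem cell_ineq (hM : IsCompactSubmanifoldWithBoundary m M B)
    (hs : IsStationary m M B) (h : SliceChart m M B Φ K 0) (hm : 0 < m) {U : E → ℝ}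
    (hU : ContDiff ℝ ∞ U) {q : ℕ} (hq : 5 ≤ q) (hr : finrank ℝ E = m + q) {c : ℝ} (hc : 0 ≤ c)
    {y : K} (hy : (y : E) ∈ Φ.target) (hlap : lap M U (Φ.symm y) ≤ c) {α s : ℝ} (hα : 0 < α)
    (hs0 : 0 ≤ s) (τ : ℝ) :
    cellInt Φ K U M y 0 (τ + s) +
        ENNReal.ofReal (Real.exp (α * s)) * cellInt Φ K U M y 0 (τ - s) ≤
      (1 + ENNReal.ofReal (Real.exp (α * s))) * cellInt Φ K U M y 0 τ +
        ENNReal.ofReal (cellErr q α s * (c / m) ^ m) *
          ENNReal.ofReal (LinearMap.normDet (param Φ K (Φ.symm y) : K →ₗ[ℝ] E)) := by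
  classical
  obtain ⟨x, hxdef⟩ : ∃ x, x = Φ.symm (y : E) := ⟨_, rfl⟩
  have hxS : x ∈ Φ.source := hxdef ▸ Φ.map_target hy
  have hΦx : Φ x = (y : E) := by rw [hxdef]; exact Φ.right_inv hy
  have hxM : x ∈ M := by
    rw [h.mem_iff x hxS, hΦx, inner_zero_left]
    exact ⟨y.2, le_rfl⟩
  rw [← hxdef] at hlap ⊢
  set P : K →L[ℝ] E := param Φ K x with hP
  set Q : Kᗮ →L[ℝ] E := cellQ Φ K x with hQ
  set T : Submodule ℝ E := LinearMap.range (P : K →ₗ[ℝ] E) with hT
  have hTp : tangentPlane M x = T := h.tangentPlane_eq hxS hxM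
  have hPinj : Function.Injective P := param_injective h.smooth h.smooth_symm K hxS
  have hQinj : Function.Injective Q := h.cellQ_injective hxS
  have hKm : finrank ℝ K = m := h.finrank_eq
  have hTm : finrank ℝ T = m := by
    rw [hT, LinearMap.finrank_range_of_inj (f := (P : K →ₗ[ℝ] E)) hPinj, hKm]
  have hQT : ∀ κ, (Q : Kᗮ →ₗ[ℝ] E) κ ∈ Tᗮ := by
    intro κ
    rw [Submodule.mem_orthogonal]
    rintro _ ⟨v, rfl⟩
    exact h.inner_param_cellQ hxS v κ
  set Qr : Kᗮ →ₗ[ℝ] Tᗮ := LinearMap.codRestrict Tᗮ (Q : Kᗮ →ₗ[ℝ] E) hQT with hQr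
  have hQrc : ∀ κ, ((Qr κ : Tᗮ) : E) = Q κ := fun κ => rfl
  have hQrinj : Function.Injective Qr := by
    intro u v huv
    apply hQinj
    rw [← hQrc, ← hQrc, huv]
  have hfin : finrank ℝ Kᗮ = finrank ℝ Tᗮ := by
    have h1 := K.finrank_add_finrank_orthogonal
    have h2 := T.finrank_add_finrank_orthogonal
    omega
  have hnQ : Qr.normDet = LinearMap.normDet (Q : Kᗮ →ₗ[ℝ] E) :=
    LinearMap.normDet_codRestrict hQT
  set Qe : Kᗮ ≃ₗ[ℝ] Tᗮ := LinearMap.linearEquivOfInjective Qr hQrinj hfin with hQe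
  have hQea : ∀ κ, Qe κ = Qr κ := fun κ => rfl
  -- the gradient and its parts
  obtain ⟨g, hg⟩ : ∃ g, g = gradient U x := ⟨_, rfl⟩
  obtain ⟨gT, hgT⟩ : ∃ gT, gT = T.starProjection g := ⟨_, rfl⟩
  have hgTT : gT ∈ T := hgT ▸ Submodule.starProjection_apply_mem T g
  have hgN : g - gT ∈ Tᗮ := hgT ▸ Submodule.sub_starProjection_mem_orthogonal g
  obtain ⟨gN, hgNdef⟩ : ∃ gN : Tᗮ, (gN : E) = g - gT := ⟨⟨g - gT, hgN⟩, rfl⟩
  have hcell : ∀ κ : Kᗮ, cellMap Φ K U ((y : E) + (κ : E)) = gT + ((gN + Qr κ : Tᗮ) : E) := by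
    intro κ
    rw [cellMap_add, ← hxdef, ← hg, Submodule.coe_add, hgNdef, hQrc]
    abel
  have hnorm : ∀ z : Tᗮ, ‖gT + (z : E)‖ ^ 2 = ‖gT‖ ^ 2 + ‖z‖ ^ 2 := by
    intro z
    have h1 : ⟪gT, (z : E)⟫_ℝ = 0 := z.2 gT hgTT
    rw [norm_add_sq_real, h1, Submodule.coe_norm]
    ring
  -- the inverse of the affine bijection
  set Ai : Tᗮ → Kᗮ := fun z => Qe.symm (z - gN) with hAi
  have hAiA : ∀ κ, Ai (gN + Qr κ) = κ := by
    intro κ
    simp only [hAi, add_sub_cancel_left]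
    rw [← hQea, LinearEquiv.symm_apply_apply]
  have hAAi : ∀ z, gN + Qr (Ai z) = z := by
    intro z
    simp only [hAi]
    rw [← hQea, LinearEquiv.apply_symm_apply]
    abel
  have hAic : Continuous Ai := by
    have h1 : Continuous Qe.symm := LinearMap.continuous_of_finiteDimensional
      (Qe.symm : Tᗮ →ₗ[ℝ] Kᗮ)
    exact h1.comp (continuous_id.sub continuous_const)
  set C : Set Tᗮ := {z | Contact M U (gT + (z : E)) x} with hC
  set H : Tᗮ → (K →L[ℝ] K) := fun z => P.adjoint ∘L cellHess Φ U (Ai z : E) x ∘L P with hH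
  set nP : ℝ := LinearMap.normDet (P : K →ₗ[ℝ] E) with hnP
  set nQ : ℝ := LinearMap.normDet (Q : Kᗮ →ₗ[ℝ] E) with hnQ'
  have hnP0 : 0 < nP := by
    rw [hnP]
    refine lt_of_le_of_ne (LinearMap.normDet_nonneg _) (Ne.symm ?_)
    rw [Ne, LinearMap.normDet_eq_zero_iff_ker_ne_bot, not_not]
    exact LinearMap.ker_eq_bot.2 hPinj
  set f : Tᗮ → ℝ := fun z => (H z).det / nP ^ 2 with hf
  have hfc : Continuous f := by
    have h1 : Continuous fun z : Tᗮ => cellHess Φ U (Ai z : E) x :=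
      (h.continuous_cellHess hU hxS).comp (continuous_subtype_val.comp hAic)
    have h2 : Continuous H := by
      simp only [hH]
      exact continuous_const.clm_comp (h1.clm_comp continuous_const)
    exact (ContinuousLinearMap.continuous_det.comp h2).div_const _
  have hCclosed : IsClosed C := by
    have h1 : C = ⋂ z ∈ M, {w : Tᗮ | U x - ⟪gT + (w : E), x⟫_ℝ ≤ U z - ⟪gT + (w : E), z⟫_ℝ} := by
      ext w
      simp only [hC, mem_ofPred_eq, mem_iInter, Contact]
      exact ⟨fun h => h.2, fun h => ⟨hxM, h⟩⟩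
    rw [h1]
    apply isClosed_biInter
    intro z _
    apply isClosed_le <;> fun_prop
  have hcontact : ∀ z ∈ C, Contact M U (gradient U x + cellQ Φ K x (Ai z)) x := by
    intro z hz
    have h1 : gradient U x + cellQ Φ K x (Ai z) = gT + (z : E) := by
      have h2 := congrArg (Subtype.val) (hAAi z)
      rw [Submodule.coe_add, hgNdef, hQrc] at h2
      rw [← hg, ← hQ, ← h2]
      abel
    rw [h1]
    exact hz
  have hpsd : ∀ z ∈ C, ∀ k : K, 0 ≤ ⟪cellHess Φ U (Ai z : E) x (P k), P k⟫_ℝ := fun z hz k =>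
    h.cellHess_psd hU hxS (Ai z) (hcontact z hz) k
  have hHsymm : ∀ z (u v : K), ⟪H z u, v⟫_ℝ = ⟪u, H z v⟫_ℝ := by
    intro z u v
    simp only [hH, ContinuousLinearMap.comp_apply, ContinuousLinearMap.adjoint_inner_left,
      ContinuousLinearMap.adjoint_inner_right]
    exact h.cellHess_symm hU hxS _ _ _
  have hHpsd : ∀ z ∈ C, ∀ k : K, 0 ≤ ⟪H z k, k⟫_ℝ := by
    intro z hz k
    simp only [hH, ContinuousLinearMap.comp_apply, ContinuousLinearMap.adjoint_inner_left]
    exact hpsd z hz k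
  have hdet0 : ∀ z ∈ C, 0 ≤ (H z).det := fun z hz => det_nonneg_of_psd (hHsymm z) (hHpsd z hz)
  have hf0 : ∀ z ∈ C, 0 ≤ f z := fun z hz => div_nonneg (hdet0 z hz) (sq_nonneg _)
  have hm' : (0 : ℝ) < m := by exact_mod_cast hm
  have hfΛ : ∀ z ∈ C, f z ≤ (c / m) ^ m := by
    intro z hz
    have h1 := det_comp_le hm hKm hPinj (H := cellHess Φ U (Ai z : E) x)
      (fun u v => h.cellHess_symm hU hxS _ u v) (hpsd z hz)
    have h2 : tdiv T (cellHess Φ U (Ai z : E) x) = lap M U x := by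
      rw [← hTp]
      exact h.cellHess_tdiv hM hs hU hxS hxM (Ai z)
    have h3 : 0 ≤ tdiv T (cellHess Φ U (Ai z : E) x) := by
      rw [tdiv_eq_sum_basis T _ (stdOrthonormalBasis ℝ T)]
      apply Finset.sum_nonneg
      intro i _
      obtain ⟨k, hk⟩ := ((stdOrthonormalBasis ℝ T) i).2
      have h4 := hpsd z hz k
      have h5 : P k = ((stdOrthonormalBasis ℝ T) i : E) := hk
      rw [h5] at h4
      rw [real_inner_comm]
      exact h4
    have h6 : (tdiv T (cellHess Φ U (Ai z : E) x) / m) ^ m ≤ (c / m) ^ m := by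
      apply pow_le_pow_left₀ (div_nonneg h3 hm'.le)
      exact div_le_div_of_nonneg_right (h2 ▸ hlap) hm'.le
    simp only [hf]
    rw [div_le_iff₀ (by positivity)]
    calc (H z).det ≤ nP ^ 2 * (tdiv T (cellHess Φ U (Ai z : E) x) / m) ^ m := h1
      _ ≤ nP ^ 2 * (c / m) ^ m := mul_le_mul_of_nonneg_left h6 (sq_nonneg _)
      _ = _ := mul_comm _ _
  have hquasi : ∀ l : ℝ, 0 ≤ l → Convex ℝ {z | z ∈ C ∧ l < f z} := by
    intro l _ z₁ hz₁ z₂ hz₂ a b ha hb hab
    have ha' : a = 1 - b := by linarith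
    have hAb : (Ai (a • z₁ + b • z₂) : E) = (1 - b) • (Ai z₁ : E) + b • (Ai z₂ : E) := by
      have h1 : Ai (a • z₁ + b • z₂) = (1 - b) • Ai z₁ + b • Ai z₂ := by
        simp only [hAi]
        rw [← map_smul, ← map_smul, ← map_add]
        congr 1
        rw [ha', smul_sub, smul_sub]
        have : gN = (1 - b) • gN + b • gN := by rw [← add_smul]; simp
        nth_rewrite 1 [this]
        abel
      rw [h1]
      simp
    have hmem : a • z₁ + b • z₂ ∈ C := by
      refine ⟨hxM, fun w hw => ?_⟩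
      have h1 := hz₁.1.2 w hw
      have h2 := hz₂.1.2 w hw
      have e : ∀ v : E, ⟪gT + ((a • z₁ + b • z₂ : Tᗮ) : E), v⟫_ℝ =
          a * ⟪gT + (z₁ : E), v⟫_ℝ + b * ⟪gT + (z₂ : E), v⟫_ℝ := by
        intro v
        rw [Submodule.coe_add, Submodule.coe_smul, Submodule.coe_smul, inner_add_left,
          inner_add_left, inner_add_left, inner_add_left, real_inner_smul_left,
          real_inner_smul_left, ha']
        ring
      rw [e, e]
      have h3 := mul_le_mul_of_nonneg_left h1 ha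
      have h4 := mul_le_mul_of_nonneg_left h2 hb
      have h5 : U x = a * U x + b * U x := by rw [← add_mul, hab, one_mul]
      have h6 : U w = a * U w + b * U w := by rw [← add_mul, hab, one_mul]
      rw [h5, h6]
      linarith
    refine ⟨hmem, ?_⟩
    have hHm : H (a • z₁ + b • z₂) = (1 - b) • H z₁ + b • H z₂ := by
      simp only [hH]
      rw [hAb, h.cellHess_mix hU hxS]
      ext v
      simp
    have hb1 : b ≤ 1 := by linarith
    have h1 := det_mix (hHsymm z₁) (hHpsd z₁ hz₁.1) (hHsymm z₂) (hHpsd z₂ hz₂.1) hb hb1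
    rw [← hHm] at h1
    have h2 := hz₁.2
    have h3 := hz₂.2
    simp only [hf] at h2 h3 ⊢
    have hn2 : (0 : ℝ) < nP ^ 2 := by positivity
    rw [lt_div_iff₀ hn2] at h2 h3 ⊢
    exact lt_of_lt_of_le (lt_min h2 h3) h1
  have hcellint : ∀ τ : ℝ, cellInt Φ K U M y 0 τ =
      ENNReal.ofReal nP * cellMass 0 C f (τ - ‖gT‖ ^ 2) := by
    intro τ
    unfold cellInt cellMass
    rw [← hxdef, ← lintegral_const_mul' _ _ ENNReal.ofReal_ne_top]
    apply lintegral_congr
    intro ζ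
    have hSm : MeasurableSet {z : Tᗮ | z ∈ C ∧ ‖z‖ ^ 2 + ‖ζ‖ ^ 2 < τ - ‖gT‖ ^ 2} := by
      have h0 : Measurable fun z : Tᗮ => ‖z‖ ^ 2 + ‖ζ‖ ^ 2 := by fun_prop
      exact MeasurableSet.inter hCclosed.measurableSet (measurableSet_lt h0 measurable_const)
    have hpre : {κ : Kᗮ | Contact M U (cellMap Φ K U ((y : E) + (κ : E))) x ∧
        ‖cellMap Φ K U ((y : E) + (κ : E))‖ ^ 2 + ‖ζ‖ ^ 2 < τ} =
        (fun κ : Kᗮ => gN + Qr κ) ⁻¹' {z : Tᗮ | z ∈ C ∧ ‖z‖ ^ 2 + ‖ζ‖ ^ 2 < τ - ‖gT‖ ^ 2} := by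
      ext κ
      simp only [mem_preimage, mem_ofPred_eq, hC]
      rw [hcell κ, hnorm]
      constructor
      · rintro ⟨h1, h2⟩
        exact ⟨h1, by linarith⟩
      · rintro ⟨h1, h2⟩
        exact ⟨h1, by linarith⟩
    have hQrm : Measurable (fun κ : Kᗮ => gN + Qr κ) :=
      measurable_const.add (LinearMap.continuous_of_finiteDimensional Qr).measurable
    rw [hpre, ← lintegral_indicator (hQrm hSm), ← lintegral_indicator hSm]
    set G : Tᗮ → ℝ≥0∞ := {z : Tᗮ | z ∈ C ∧ ‖z‖ ^ 2 + ‖ζ‖ ^ 2 < τ - ‖gT‖ ^ 2}.indicator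
      (fun z => ENNReal.ofReal (f z)) with hG
    have hGm : Measurable G := (hfc.measurable.ennreal_ofReal).indicator hSm
    rw [← lintegral_affine Qr hQrinj hfin gN hGm, hnQ, mul_comm (∫⁻ κ : Kᗮ, _) _,
      ← mul_assoc, ← lintegral_const_mul (f := fun κ : Kᗮ => G (gN + Qr κ)) _ (hGm.comp hQrm)]
    apply lintegral_congr
    intro κ
    by_cases hκ : κ ∈ (fun κ : Kᗮ => gN + Qr κ) ⁻¹'
        {z : Tᗮ | z ∈ C ∧ ‖z‖ ^ 2 + ‖ζ‖ ^ 2 < τ - ‖gT‖ ^ 2}
    · rw [indicator_of_mem hκ]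
      have hκ' : gN + Qr κ ∈ {z : Tᗮ | z ∈ C ∧ ‖z‖ ^ 2 + ‖ζ‖ ^ 2 < τ - ‖gT‖ ^ 2} := hκ
      have hGκ : G (gN + Qr κ) = ENNReal.ofReal (f (gN + Qr κ)) := by
        rw [hG, indicator_of_mem hκ']
      rw [hGκ, ← ENNReal.ofReal_mul hnP0.le,
        ← ENNReal.ofReal_mul (mul_nonneg hnP0.le (LinearMap.normDet_nonneg _))]
      congr 1
      have h1 := h.det_cellMap hU hy κ
      rw [← hxdef] at h1
      have h2 : (H (gN + Qr κ)) = (param Φ K x).adjoint ∘L cellHess Φ U (κ : E) x ∘L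
          param Φ K x := by
        simp only [hH]
        rw [hAiA]
      rw [← h2, abs_of_nonneg (hdet0 _ hκ'.1)] at h1
      have h3 : |(fderiv ℝ (cellMap Φ K U) ((y : E) + (κ : E))).det| =
          (H (gN + Qr κ)).det * nQ / nP := by
        rw [eq_div_iff hnP0.ne']
        exact h1
      rw [h3]
      simp only [hf]
      field_simp
      rw [hnQ']
    · rw [indicator_of_notMem hκ]
      have hκ' : gN + Qr κ ∉ {z : Tᗮ | z ∈ C ∧ ‖z‖ ^ 2 + ‖ζ‖ ^ 2 < τ - ‖gT‖ ^ 2} := hκ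
      have hGκ : G (gN + Qr κ) = 0 := by
        rw [hG, indicator_of_notMem hκ']
      rw [hGκ, mul_zero]
  have hTr : finrank ℝ Tᗮ = q := by
    have h2 := T.finrank_add_finrank_orthogonal
    omega
  have hmain := cell_gain hTr hq hCclosed.measurableSet hfc.measurable
    (Λ := (c / m) ^ m) hf0 hfΛ hquasi hα hs0 (τ - ‖gT‖ ^ 2)
  rw [hcellint, hcellint, hcellint]
  have e1 : τ + s - ‖gT‖ ^ 2 = τ - ‖gT‖ ^ 2 + s := by ring
  have e2 : τ - s - ‖gT‖ ^ 2 = τ - ‖gT‖ ^ 2 - s := by ring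
  rw [e1, e2]
  calc ENNReal.ofReal nP * cellMass 0 C f (τ - ‖gT‖ ^ 2 + s) +
        ENNReal.ofReal (Real.exp (α * s)) *
          (ENNReal.ofReal nP * cellMass 0 C f (τ - ‖gT‖ ^ 2 - s))
      = ENNReal.ofReal nP * (cellMass 0 C f (τ - ‖gT‖ ^ 2 + s) +
        ENNReal.ofReal (Real.exp (α * s)) * cellMass 0 C f (τ - ‖gT‖ ^ 2 - s)) := by ring
    _ ≤ ENNReal.ofReal nP * ((1 + ENNReal.ofReal (Real.exp (α * s))) *
          cellMass 0 C f (τ - ‖gT‖ ^ 2) +
        ENNReal.ofReal (cellErr q α s * (c / m) ^ m)) := mul_le_mul' le_rfl hmain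
    _ = _ := by ring

end Pool.Agent.Helper62.HC
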