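import Mathlib
import Pool.Agent.Helper62.HC.Shell

/-!
# The whole space, and the limit of the error term
-/

namespace Pool.Agent.Helper62.HC

open MeasureTheory Set Filter Topology
open Pool.Agent.Helper74.ISC

private lemma exp_upper {a δ : ℝ} (hδ : 0 < δ) :
    ∃ h₀ > 0, ∀ h, 0 < h → h ≤ h₀ → Real.exp (a * h) - 1 ≤ h * (a + δ) := by
  have h1 : HasDerivAt (fun h : ℝ => Real.exp (a * h)) (Real.exp (a * 0) * (a * 1)) 0 :=
    ((hasDerivAt_id 0).const_mul a).exp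
  have h2 : Real.exp (a * 0) * (a * 1) = a := by simp
  rw [h2, hasDerivAt_iff_tendsto_slope_zero] at h1
  have h3 : ∀ᶠ t in 𝓝[≠] (0 : ℝ), t⁻¹ • (Real.exp (a * (0 + t)) - Real.exp (a * 0)) < a + δ :=
    h1.eventually_lt_const (by linarith)
  rw [eventually_nhdsWithin_iff, Metric.eventually_nhds_iff] at h3
  obtain ⟨ε, hε, h4⟩ := h3
  refine ⟨ε / 2, half_pos hε, fun h hh0 hh => ?_⟩
  have h5 := h4 (y := h) (by rw [Real.dist_eq, sub_zero, abs_of_pos hh0]; linarith) hh0.ne'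
  rw [zero_add, mul_zero, Real.exp_zero, smul_eq_mul, inv_mul_lt_iff₀ hh0] at h5
  exact h5.le

private lemma fullVol_of_nonneg (k : ℕ) {s : ℝ} (hs : 0 ≤ s) :
    fullVol k s = ballVol k * s ^ ((k : ℝ) / 2) := by
  unfold fullVol
  rw [max_eq_left hs]

/-- the error of a cell -/
theorem cell_bound {k : ℕ} (hk : 5 ≤ k) {a δ : ℝ} (ha : 0 < a) (hδ : 0 < δ) :
    ∃ h₀ > 0, ∀ h, 0 < h → h ≤ h₀ →
      cellErr k a h ≤ h ^ 2 * (k * ballVol k * rayMax (k - 1) a + δ) := by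
  have hω := ballVol_pos k
  have hM := rayMax_nonneg (e := k - 1) (by omega) ha
  have hk0 : (0 : ℝ) < k := by exact_mod_cast (by omega : 0 < k)
  set A : ℝ := k * ballVol k * rayMax (k - 1) a with hA
  have hA0 : 0 ≤ A := by positivity
  obtain ⟨h₀, hh₀, h1⟩ := exp_upper (a := a) (δ := a * δ / (A + 1)) (by positivity)
  refine ⟨h₀, hh₀, fun h hh0 hh => ?_⟩
  have h2 := h1 h hh0 hh
  have h3 : (Real.exp (a * h) - 1) / a ≤ h * (1 + δ / (A + 1)) := by
    rw [div_le_iff₀ ha]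
    refine h2.trans (le_of_eq ?_)
    field_simp
  have h4 : cellErr k a h = h * (A * ((Real.exp (a * h) - 1) / a)) := by
    unfold cellErr
    rw [hA]
    ring
  rw [h4]
  have h5 : A * ((Real.exp (a * h) - 1) / a) ≤ A * (h * (1 + δ / (A + 1))) :=
    mul_le_mul_of_nonneg_left h3 hA0
  have h6 : A * (δ / (A + 1)) ≤ δ := by
    rw [mul_div_assoc', div_le_iff₀ (by positivity)]
    nlinarith
  calc h * (A * ((Real.exp (a * h) - 1) / a)) ≤ h * (A * (h * (1 + δ / (A + 1)))) :=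
        mul_le_mul_of_nonneg_left h5 hh0.le
    _ = h ^ 2 * (A + A * (δ / (A + 1))) := by ring
    _ ≤ h ^ 2 * (A + δ) := mul_le_mul_of_nonneg_left (by linarith) (by positivity)

/-- the whole space -/
theorem total_bound {n : ℕ} (hn : 6 ≤ n) {a τ δ : ℝ} (ha : 0 < a) (hτ : 0 < τ) (hδ : 0 < δ) :
    ∃ h₀ > 0, ∀ h, 0 < h → h ≤ h₀ →
      h ^ 2 * (ballVol n * ((n : ℝ) / 2) * ((n : ℝ) / 2 - 1 - a * τ) * τ ^ ((n : ℝ) / 2 - 2) - δ) ≤
        fullVol n (τ + h) + Real.exp (a * h) * fullVol n (τ - h) -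
          (1 + Real.exp (a * h)) * fullVol n τ := by
  have hn' : (6 : ℝ) ≤ n := by exact_mod_cast hn
  have hω := ballVol_pos n
  set p : ℝ := (n : ℝ) / 2 with hp
  have hp3 : 3 ≤ p := by rw [hp]; linarith
  have hτp : 0 < τ ^ (p - 1) := Real.rpow_pos_of_pos hτ _
  obtain ⟨h₁, hh₁, hgu⟩ := exp_upper (a := a)
    (δ := δ / (ballVol n * p * τ ^ (p - 1))) (by positivity)
  refine ⟨min h₁ τ, by positivity, fun h hh0 hh => ?_⟩
  have hhh₁ : h ≤ h₁ := hh.trans (min_le_left _ _)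
  have hhτ : h ≤ τ := hh.trans (min_le_right _ _)
  have e1 := hgu h hh0 hhh₁
  have e2 := second_diff_pow hp3 hh0.le hhτ
  have e3 := bern (r := p) (x := τ) (y := τ - h) (by linarith) hτ (by linarith)
  have hg1 : 0 ≤ Real.exp (a * h) - 1 := by
    have : (1 : ℝ) ≤ Real.exp (a * h) := Real.one_le_exp (by positivity)
    linarith
  rw [fullVol_of_nonneg n (by linarith), fullVol_of_nonneg n (by linarith),
    fullVol_of_nonneg n hτ.le, ← hp]
  have e5 : (Real.exp (a * h) - 1) * (τ ^ p - (τ - h) ^ p) ≤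
      (h * (a + δ / (ballVol n * p * τ ^ (p - 1)))) * (p * h * τ ^ (p - 1)) := by
    refine mul_le_mul e1 (by nlinarith) ?_ (hg1.trans e1)
    have : (τ - h) ^ p ≤ τ ^ p := Real.rpow_le_rpow (by linarith) (by linarith) (by linarith)
    linarith
  have e6 : τ ^ (p - 1) = τ ^ (p - 2) * τ := by
    rw [← Real.rpow_add_one hτ.ne']
    congr 1
    ring
  have e7 : ballVol n * ((h * (a + δ / (ballVol n * p * τ ^ (p - 1)))) *
        (p * h * τ ^ (p - 1))) =
      h ^ 2 * (ballVol n * p * (a * τ) * τ ^ (p - 2) + δ) := by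
    have hτ2 : 0 < τ ^ (p - 2) := Real.rpow_pos_of_pos hτ _
    have hp0 : 0 < p := by linarith
    rw [e6]
    field_simp
  have e8 := mul_le_mul_of_nonneg_left e5 hω.le
  rw [e7] at e8
  have e9 := mul_le_mul_of_nonneg_left e2 hω.le
  have e10 : ballVol n * (p * (p - 1) * h ^ 2 * τ ^ (p - 2)) -
      h ^ 2 * (ballVol n * p * (a * τ) * τ ^ (p - 2) + δ) =
      h ^ 2 * (ballVol n * p * (p - 1 - a * τ) * τ ^ (p - 2) - δ) := by
    ring
  rw [← e10]
  have e11 : ballVol n * (τ + h) ^ p + Real.exp (a * h) * (ballVol n * (τ - h) ^ p) -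
      (1 + Real.exp (a * h)) * (ballVol n * τ ^ p) =
      ballVol n * ((τ + h) ^ p + (τ - h) ^ p - 2 * τ ^ p) -
        ballVol n * ((Real.exp (a * h) - 1) * (τ ^ p - (τ - h) ^ p)) := by
    ring
  rw [e11]
  linarith

end Pool.Agent.Helper62.HC
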