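import Mathlib
import Pool.Agent.Helper74.ISC.Unique
import Pool.Agent.Helper74.ISC.Cone
import Pool.Agent.Helper62.HC.PieceDiff
import Pool.Agent.Helper62.HC.Total

/-!
# The Alexandrov-Bakelman-Pucci argument with modified second differences
-/

namespace Pool.Agent.Helper62.HC

open Module InnerProductSpace MeasureTheory Set Filter Topology
open Pool.Agent.Helper74.Iso
open Pool.Agent.Helper74.ISC
open scoped ContDiff ENNReal

variable {E : Type*} [NormedAddCommGroup E] [InnerProductSpace ℝ E] [FiniteDimensional ℝ E]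
  [MeasurableSpace E] [BorelSpace E]
variable {m : ℕ} {M B : Set E}

/-- A countable partition of the interior into measurable pieces of interior charts. -/
private theorem abp_partition (hM : IsCompactSubmanifoldWithBoundary m M B) :
    ∃ (Ψ : ℕ → OpenPartialHomeomorph E E) (L : ℕ → Submodule ℝ E) (S : ℕ → Set E),
      (∀ i, MeasurableSet (S i)) ∧ Pairwise (Function.onFun Disjoint S) ∧ (⋃ i, S i) = M \ B ∧
      (∀ i, S i ⊆ (Ψ i).source) ∧ ∀ i, S i = ∅ ∨ SliceChart m M B (Ψ i) (L i) 0 := by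
  classical
  have hG : MeasurableSet (M \ B) :=
    hM.isCompact.isClosed.measurableSet.diff hM.isClosed_boundary.measurableSet
  have hex : ∀ p : E, ∃ (Φ : OpenPartialHomeomorph E E) (K : Submodule ℝ E),
      p ∈ M \ B → SliceChart m M B Φ K 0 ∧ p ∈ Φ.source := by
    intro p
    by_cases hp : p ∈ M \ B
    · obtain ⟨Φ, K, e, h1, h2, h3⟩ := exists_sliceChart hM hp.1
      have he : e = 0 := h3.2 hp.2
      subst he
      exact ⟨Φ, K, fun _ => ⟨h1, h2⟩⟩
    · exact ⟨OpenPartialHomeomorph.refl E, ⊥, fun h => absurd h hp⟩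
  choose Φ K hΦ using hex
  obtain ⟨t, htG, htc, hcov⟩ := TopologicalSpace.countable_cover_nhdsWithin
    (f := fun p => (Φ p).source) (s := M \ B)
    (fun p hp => mem_nhdsWithin_of_mem_nhds ((Φ p).open_source.mem_nhds (hΦ p hp).2))
  rcases t.eq_empty_or_nonempty with ht0 | htn
  · refine ⟨fun _ => OpenPartialHomeomorph.refl E, fun _ => ⊥, fun _ => ∅,
      fun _ => MeasurableSet.empty, ?_, ?_, fun _ => empty_subset _, fun _ => Or.inl rfl⟩
    · intro i j _
      exact disjoint_bot_left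
    · rw [ht0] at hcov
      simp only [mem_empty_iff_false, iUnion_of_empty, iUnion_empty] at hcov ⊢
      exact (subset_empty_iff.1 hcov).symm
  · obtain ⟨q, hq⟩ := htc.exists_eq_range htn
    have hqG : ∀ i, q i ∈ M \ B := fun i => htG (hq ▸ mem_range_self i)
    refine ⟨fun i => Φ (q i), fun i => K (q i),
      disjointed fun i => (M \ B) ∩ (Φ (q i)).source, ?_, disjoint_disjointed _, ?_, ?_, ?_⟩
    · exact fun i => MeasurableSet.disjointed
        (fun i => hG.inter (Φ (q i)).open_source.measurableSet) i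
    · rw [iUnion_disjointed, ← inter_iUnion]
      refine inter_eq_left.2 (hcov.trans ?_)
      intro x hx
      rw [mem_iUnion₂] at hx
      obtain ⟨p, hp, hxp⟩ := hx
      rw [hq] at hp
      obtain ⟨i, rfl⟩ := hp
      exact mem_iUnion.2 ⟨i, hxp⟩
    · exact fun i => (disjointed_subset _ i).trans inter_subset_right
    · exact fun i => Or.inr (hΦ _ (hqG i)).1

/-- The sum of the modified second differences. -/
private theorem abp_sum (hM : IsCompactSubmanifoldWithBoundary m M B) (hs : IsStationary m M B)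
    (hm : 0 < m) {U : E → ℝ} (hU : ContDiff ℝ ∞ U) {D : Set E} (hD : MeasurableSet D)
    (hD0 : volume Dᶜ = 0)
    (hDu : ∀ ξ ∈ D, ∀ x y, Contact M U ξ x → Contact M U ξ y → x = y) {q : ℕ} (hq : 5 ≤ q)
    (hr : finrank ℝ E = m + q) {c : ℝ} (hc : 0 ≤ c) (hlap : ∀ x ∈ M, lap M U x ≤ c)
    {α s : ℝ} (hα : 0 < α) (hs0 : 0 ≤ s) (τ : ℝ) :
    pieceMass D M U 0 (M \ B) (τ + s) +
        ENNReal.ofReal (Real.exp (α * s)) * pieceMass D M U 0 (M \ B) (τ - s) ≤
      (1 + ENNReal.ofReal (Real.exp (α * s))) * pieceMass D M U 0 (M \ B) τ +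
        ENNReal.ofReal (cellErr q α s * (c / m) ^ m) * μHE[m] M := by
  obtain ⟨Ψ, L, S, hSm, hSd, hSU, hSs, hSc⟩ := abp_partition hM
  have hSM : ∀ i, S i ⊆ M := fun i => (subset_iUnion S i).trans (hSU.trans_subset sdiff_subset)
  have hmeas : ∀ i, MeasurableSet {ξ : E | ξ ∈ D ∧ ∃ x ∈ S i, Contact M U ξ x} := by
    intro i
    rcases hSc i with h0 | hch
    · rw [h0]
      simp
    · exact hch.measurableSet_piece hM hU hD hDu (hSm i) (hSM i) (hSs i)
  have hadd : ∀ σ : ℝ, pieceMass D M U 0 (M \ B) σ = ∑' i, pieceMass D M U 0 (S i) σ := by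
    intro σ
    unfold pieceMass
    have hset : ∀ (T : Set E) (ζ : EuclideanSpace ℝ (Fin 0)),
        {ξ : E | ξ ∈ D ∧ ‖ξ‖ ^ 2 + ‖ζ‖ ^ 2 < σ ∧ ∃ x ∈ T, Contact M U ξ x} =
          Prod.mk ζ ⁻¹' {w : EuclideanSpace ℝ (Fin 0) × E | ‖w.2‖ ^ 2 + ‖w.1‖ ^ 2 < σ ∧
            w.2 ∈ {ξ : E | ξ ∈ D ∧ ∃ x ∈ T, Contact M U ξ x}} := by
      intro T ζ
      ext ξ
      simp only [mem_ofPred_eq, mem_preimage]
      tauto
    have hball : MeasurableSet
        {w : EuclideanSpace ℝ (Fin 0) × E | ‖w.2‖ ^ 2 + ‖w.1‖ ^ 2 < σ} := by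
      apply measurableSet_lt _ measurable_const
      fun_prop
    have hprod : ∀ i, MeasurableSet
        {w : EuclideanSpace ℝ (Fin 0) × E | ‖w.2‖ ^ 2 + ‖w.1‖ ^ 2 < σ ∧
            w.2 ∈ {ξ : E | ξ ∈ D ∧ ∃ x ∈ S i, Contact M U ξ x}} := by
      intro i
      exact hball.inter (measurable_snd (hmeas i))
    rw [← lintegral_tsum]
    · refine lintegral_congr fun ζ => ?_
      rw [← measure_iUnion]
      · congr 1
        ext ξ
        simp only [mem_ofPred_eq, mem_iUnion]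
        constructor
        · rintro ⟨h1, h2, x, hx, h3⟩
          rw [← hSU, mem_iUnion] at hx
          obtain ⟨i, hi⟩ := hx
          exact ⟨i, h1, h2, x, hi, h3⟩
        · rintro ⟨i, h1, h2, x, hx, h3⟩
          exact ⟨h1, h2, x, hSU ▸ mem_iUnion.2 ⟨i, hx⟩, h3⟩
      · intro i j hij
        rw [Function.onFun, Set.disjoint_left]
        rintro ξ ⟨h1, _, x, hx, hcx⟩ ⟨_, _, y, hy, hcy⟩
        have hxy := hDu ξ h1 x y hcx hcy
        subst hxy
        exact Set.disjoint_left.1 (hSd hij) hx hy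
      · intro i
        rw [hset]
        exact measurable_prodMk_left (hprod i)
    · intro i
      refine Measurable.aemeasurable ?_
      have h1 := measurable_measure_prodMk_left (ν := (volume : Measure E)) (hprod i)
      have h2 : (fun ζ : EuclideanSpace ℝ (Fin 0) => volume {ξ : E | ξ ∈ D ∧
          ‖ξ‖ ^ 2 + ‖ζ‖ ^ 2 < σ ∧ ∃ x ∈ S i, Contact M U ξ x}) = fun ζ => volume
          (Prod.mk ζ ⁻¹' {w : EuclideanSpace ℝ (Fin 0) × E | ‖w.2‖ ^ 2 + ‖w.1‖ ^ 2 < σ ∧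
            w.2 ∈ {ξ : E | ξ ∈ D ∧ ∃ x ∈ S i, Contact M U ξ x}}) := by
        funext ζ
        rw [hset]
      rw [h2]
      exact h1
  have hpd : ∀ i, pieceMass D M U 0 (S i) (τ + s) +
        ENNReal.ofReal (Real.exp (α * s)) * pieceMass D M U 0 (S i) (τ - s) ≤
      (1 + ENNReal.ofReal (Real.exp (α * s))) * pieceMass D M U 0 (S i) τ +
        ENNReal.ofReal (cellErr q α s * (c / m) ^ m) * μHE[m] (S i) := by
    intro i
    rcases hSc i with h0 | hch
    · have hz : ∀ σ, pieceMass D M U 0 (S i) σ = 0 := by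
        intro σ
        unfold pieceMass
        rw [h0]
        simp
      rw [hz, hz, hz, mul_zero, add_zero]
      exact zero_le
    · exact piece_gain hM hs hch hm hU hD hD0 hDu (hSm i) (hSM i) (hSs i) hq hr hc
        (fun x hx => hlap x (hSM i hx)) hα hs0 τ
  rw [hadd, hadd, hadd, ← ENNReal.tsum_mul_left, ← ENNReal.tsum_add, ← ENNReal.tsum_mul_left]
  refine (ENNReal.tsum_le_tsum hpd).trans ?_
  rw [ENNReal.tsum_add]
  refine add_le_add le_rfl ?_
  rw [ENNReal.tsum_mul_left, ← measure_iUnion hSd hSm, hSU]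
  exact mul_le_mul_right (measure_mono sdiff_subset) _

/-- The mass of the contact set for small parameters. -/
private theorem abp_mass (hM : IsCompactSubmanifoldWithBoundary m M B) (hne : M.Nonempty)
    {n : ℕ} (hn : finrank ℝ E = n) (hn1 : 1 ≤ n) {U : E → ℝ} (hU : ContDiff ℝ ∞ U) {ε : ℝ}
    (hε1 : ε < 1) (hbd : ∀ x ∈ B, 1 - ε < ⟪gradient U x, conormal M x⟫_ℝ) {D : Set E}
    (hD0 : volume Dᶜ = 0) {τ : ℝ} (hτ0 : 0 ≤ τ) (hτ : τ ≤ (1 - ε) ^ 2) :
    pieceMass D M U 0 (M \ B) τ = ENNReal.ofReal (fullVol n τ) := by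
  have hε : 0 < 1 - ε := by linarith
  have hUd : Differentiable ℝ U := hU.differentiable (by simp)
  have hcon : ∀ ξ : E, ‖ξ‖ < 1 - ε → ∃ x ∈ M \ B, Contact M U ξ x := by
    intro ξ hξ
    obtain ⟨x, hx⟩ := exists_contact hM.isCompact hne hU.continuous ξ
    refine ⟨x, ⟨hx.1, fun hxB => ?_⟩, hx⟩
    obtain ⟨⟨_, hn, _⟩, hcone⟩ := conormal_spec hM hxB
    have h1 := contact_inner_nonneg (hUd x) hx hcone
    rw [inner_neg_right, inner_sub_left] at h1
    have h2 := hbd x hxB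
    have h3 : ⟪ξ, conormal M x⟫_ℝ ≤ ‖ξ‖ := by
      refine (real_inner_le_norm _ _).trans (le_of_eq ?_)
      rw [hn, mul_one]
    linarith
  unfold pieceMass
  have h1 := volume_shell (E := E) (r := 0) (n := n) (by omega) hn1 hτ0
  unfold fullVol
  rw [max_eq_left hτ0, ← h1]
  refine lintegral_congr fun ζ => ?_
  have h3 : {ξ : E | ξ ∈ D ∧ ‖ξ‖ ^ 2 + ‖ζ‖ ^ 2 < τ ∧ ∃ x ∈ M \ B, Contact M U ξ x} =
      {ξ : E | ‖ξ‖ ^ 2 + ‖ζ‖ ^ 2 < τ} ∩ D := by
    ext ξ
    simp only [mem_ofPred_eq, mem_inter_iff]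
    constructor
    · rintro ⟨h4, h5, _⟩
      exact ⟨h5, h4⟩
    · rintro ⟨h4, h5⟩
      refine ⟨h5, h4, hcon ξ ?_⟩
      have h6 : ‖ξ‖ ^ 2 < (1 - ε) ^ 2 := by
        have := sq_nonneg ‖ζ‖
        linarith
      exact lt_of_pow_lt_pow_left₀ 2 hε.le h6
  rw [h3, measure_inter_conull hD0]

theorem abp_gain (hM : IsCompactSubmanifoldWithBoundary m M B) (hs : IsStationary m M B)
    (hne : M.Nonempty) (hm : 2 ≤ m) {q : ℕ} (hq : 5 ≤ q) (hr : finrank ℝ E = m + q) {U : E → ℝ}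
    (hU : ContDiff ℝ ∞ U) {c ε : ℝ} (hc : 0 ≤ c) (hε : 0 < ε) (hε1 : ε < 1)
    (hlap : ∀ x ∈ M, lap M U x ≤ c)
    (hbd : ∀ x ∈ B, 1 - ε < ⟪gradient U x, conormal M x⟫_ℝ) :
    ((m : ℝ) + q) * ballVol (m + q) *
        (((m : ℝ) + q - 2) / (q - 2)) ^ (((q : ℝ) - 2) / 2) * (1 - ε) ^ m ≤
      q * ballVol q * ((c / m) ^ m * (μHE[m] M).toReal) := by
  obtain ⟨D, hD, hD0, hDu⟩ := exists_unique_set hM.isCompact hU.continuous
  have hε' : 0 < 1 - ε := by linarith
  have hm2 : (2 : ℝ) ≤ m := by exact_mod_cast hm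
  have hq5 : (5 : ℝ) ≤ q := by exact_mod_cast hq
  set A : ℝ := (μHE[m] M).toReal with hA
  have hA0 : 0 ≤ A := ENNReal.toReal_nonneg
  have hAM : μHE[m] M = ENNReal.ofReal A := (ENNReal.ofReal_toReal (muHE_lt_top hM).ne).symm
  have hq0 : 0 ≤ (c / m) ^ m := pow_nonneg (div_nonneg hc (by linarith)) _
  set Λ : ℝ := (c / m) ^ m * A with hΛ
  have hΛ0 : 0 ≤ Λ := mul_nonneg hq0 hA0
  have hωn := ballVol_pos (m + q)
  have hωq := ballVol_pos q
  set σ : ℝ := ((m : ℝ) + q - 2) / (q - 2) with hσ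
  have hq2 : (0 : ℝ) < (q : ℝ) - 2 := by linarith
  have hσ0 : 0 < σ := div_pos (by linarith) hq2
  -- the inequality for `0 < τ < (1 - ε) ^ 2`
  have key : ∀ τ : ℝ, 0 < τ → τ < (1 - ε) ^ 2 →
      ((m : ℝ) + q) * ballVol (m + q) * σ ^ (((q : ℝ) - 2) / 2) * τ ^ ((m : ℝ) / 2) ≤
        q * ballVol q * Λ := by
    intro τ hτ0 hτ1
    have hτq : 0 < τ ^ ((q : ℝ) / 2 - 2) := Real.rpow_pos_of_pos hτ0 _
    -- the optimal coefficient
    set α : ℝ := ((q : ℝ) - 4) * ((m : ℝ) + q - 2) / (2 * (q - 2) * τ) with hαdef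
    have hα : 0 < α := by
      rw [hαdef]
      exact div_pos (mul_pos (by linarith) (by linarith)) (by positivity)
    have hατ : ((m : ℝ) + q) / 2 - 1 - α * τ = σ := by
      rw [hαdef, hσ]
      field_simp
      ring
    -- with an error `δ`
    have hδ : ∀ δ : ℝ, 0 < δ →
        ballVol (m + q) * (((m : ℝ) + q) / 2) * σ * τ ^ (((m : ℝ) + q) / 2 - 2) - δ ≤
        (q * ballVol q * rayMax (q - 1) α + δ) * Λ := by
      intro δ hδ
      obtain ⟨h₁, hh₁, hcell⟩ := cell_bound hq hα hδ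
      obtain ⟨h₂, hh₂, htot⟩ := total_bound (n := m + q) (by omega) hα hτ0 hδ
      obtain ⟨s, hs0, hsτ, hs1, hsh₁, hsh₂⟩ : ∃ s : ℝ, 0 < s ∧ s ≤ τ ∧ τ + s ≤ (1 - ε) ^ 2 ∧
          s ≤ h₁ ∧ s ≤ h₂ := by
        refine ⟨min (min τ ((1 - ε) ^ 2 - τ)) (min h₁ h₂),
          lt_min (lt_min hτ0 (by linarith)) (lt_min hh₁ hh₂), ?_, ?_, ?_, ?_⟩
        · exact (min_le_left _ _).trans (min_le_left _ _)
        · have := (min_le_left (min τ ((1 - ε) ^ 2 - τ)) (min h₁ h₂)).trans (min_le_right _ _)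
          linarith
        · exact (min_le_right _ _).trans (min_le_left _ _)
        · exact (min_le_right _ _).trans (min_le_right _ _)
      set X : ℝ := cellErr q α s with hX
      have hX0 : 0 ≤ X := cellErr_nonneg hq hα hs0.le
      have h1 := abp_sum hM hs (by omega) hU hD hD0 hDu hq hr hc hlap hα hs0.le τ
      rw [abp_mass hM hne hr (by omega) hU hε1 hbd hD0 (by linarith) hs1,
        abp_mass hM hne hr (by omega) hU hε1 hbd hD0 (by linarith : 0 ≤ τ - s) (by linarith),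
        abp_mass hM hne hr (by omega) hU hε1 hbd hD0 hτ0.le hτ1.le, hAM, ← hX] at h1
      have hg : 0 ≤ Real.exp (α * s) := (Real.exp_pos _).le
      have f1 := fullVol_nonneg (m + q) (τ + s)
      have f2 := fullVol_nonneg (m + q) (τ - s)
      have f3 := fullVol_nonneg (m + q) τ
      have hXc : 0 ≤ X * (c / m) ^ m := mul_nonneg hX0 hq0
      rw [← ENNReal.ofReal_mul hg, ← ENNReal.ofReal_add f1 (mul_nonneg hg f2),
        ← ENNReal.ofReal_mul hXc, show (1 : ℝ≥0∞) = ENNReal.ofReal 1 by simp,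
        ← ENNReal.ofReal_add zero_le_one hg, ← ENNReal.ofReal_mul (by positivity),
        ← ENNReal.ofReal_add (by positivity) (mul_nonneg hXc hA0),
        ENNReal.ofReal_le_ofReal_iff (add_nonneg (by positivity) (mul_nonneg hXc hA0))] at h1
      have h2 := htot s hs0 hsh₂
      have h6 : (((m + q : ℕ) : ℝ)) = (m : ℝ) + q := by push_cast; ring
      rw [h6, hατ] at h2
      have h3 : s ^ 2 * (ballVol (m + q) * (((m : ℝ) + q) / 2) * σ *
          τ ^ (((m : ℝ) + q) / 2 - 2) - δ) ≤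
          s ^ 2 * ((q * ballVol q * rayMax (q - 1) α + δ) * Λ) := by
        have h4 : X * (c / m) ^ m * A ≤ s ^ 2 *
            ((q * ballVol q * rayMax (q - 1) α + δ) * Λ) := by
          calc X * (c / m) ^ m * A = X * Λ := by rw [hΛ]; ring
            _ ≤ (s ^ 2 * (q * ballVol q * rayMax (q - 1) α + δ)) * Λ :=
                mul_le_mul_of_nonneg_right (hcell s hs0 hsh₁) hΛ0
            _ = _ := by ring
        linarith
      exact le_of_mul_le_mul_left h3 (by positivity)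
    have h1 : ballVol (m + q) * (((m : ℝ) + q) / 2) * σ * τ ^ (((m : ℝ) + q) / 2 - 2) ≤
        (q * ballVol q * rayMax (q - 1) α) * Λ := by
      refine le_of_forall_pos_le_add fun η hη => ?_
      have h2 := hδ (η / (1 + Λ)) (by positivity)
      have h3 : η / (1 + Λ) + η / (1 + Λ) * Λ = η := by
        field_simp
      nlinarith
    have h2 : τ ^ (((m : ℝ) + q) / 2 - 2) = τ ^ ((m : ℝ) / 2) * τ ^ ((q : ℝ) / 2 - 2) := by
      rw [← Real.rpow_add hτ0]
      congr 1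
      ring
    -- the value of the error
    have h3 : rayMax (q - 1) α = τ ^ ((q : ℝ) / 2 - 2) / σ ^ ((q : ℝ) / 2 - 2) / 2 := by
      unfold rayMax
      rw [Nat.cast_sub (by omega : 1 ≤ q)]
      push_cast
      have e1 : ((q : ℝ) - 1 - 3) / 2 / α = τ / σ := by
        have e2 : (0 : ℝ) < (q : ℝ) - 4 := by linarith
        have e3 : (0 : ℝ) < (m : ℝ) + q - 2 := by linarith
        rw [hαdef, hσ]
        field_simp
        ring
      rw [e1, Real.div_rpow hτ0.le hσ0.le]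
      have e4 : ((q : ℝ) - 1 - 3) / 2 = (q : ℝ) / 2 - 2 := by ring
      rw [e4]
    have hσp : 0 < σ ^ ((q : ℝ) / 2 - 2) := Real.rpow_pos_of_pos hσ0 _
    have h4 : σ ^ (((q : ℝ) - 2) / 2) = σ ^ ((q : ℝ) / 2 - 2) * σ := by
      rw [← Real.rpow_add_one hσ0.ne']
      congr 1
      ring
    rw [h2, h3] at h1
    have h5 : (((m : ℝ) + q) * ballVol (m + q) * σ ^ (((q : ℝ) - 2) / 2) * τ ^ ((m : ℝ) / 2)) *
        (τ ^ ((q : ℝ) / 2 - 2) / (2 * σ ^ ((q : ℝ) / 2 - 2))) ≤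
        (q * ballVol q * Λ) * (τ ^ ((q : ℝ) / 2 - 2) / (2 * σ ^ ((q : ℝ) / 2 - 2))) := by
      have e5 : (((m : ℝ) + q) * ballVol (m + q) * σ ^ (((q : ℝ) - 2) / 2) *
          τ ^ ((m : ℝ) / 2)) * (τ ^ ((q : ℝ) / 2 - 2) / (2 * σ ^ ((q : ℝ) / 2 - 2))) =
          ballVol (m + q) * (((m : ℝ) + q) / 2) * σ *
            (τ ^ ((m : ℝ) / 2) * τ ^ ((q : ℝ) / 2 - 2)) := by
        rw [h4]
        field_simp
      have e6 : (q * ballVol q * Λ) * (τ ^ ((q : ℝ) / 2 - 2) / (2 * σ ^ ((q : ℝ) / 2 - 2))) =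
          (q * ballVol q * (τ ^ ((q : ℝ) / 2 - 2) / σ ^ ((q : ℝ) / 2 - 2) / 2)) * Λ := by
        field_simp
      rw [e5, e6]
      exact h1
    exact le_of_mul_le_mul_right h5 (by positivity)
  -- the limit
  set W : ℝ := ((m : ℝ) + q) * ballVol (m + q) * σ ^ (((q : ℝ) - 2) / 2) with hW
  have hlim : Tendsto (fun τ : ℝ => W * τ ^ ((m : ℝ) / 2)) (𝓝[<] ((1 - ε) ^ 2))
      (𝓝 (W * ((1 - ε) ^ 2) ^ ((m : ℝ) / 2))) := by
    refine Tendsto.const_mul _ ?_
    refine ((Real.continuousAt_rpow_const _ _ (Or.inl ?_)).tendsto).mono_left nhdsWithin_le_nhds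
    positivity
  have hev : ∀ᶠ τ in 𝓝[<] ((1 - ε) ^ 2), W * τ ^ ((m : ℝ) / 2) ≤ q * ballVol q * Λ := by
    have h1 : Ioo 0 ((1 - ε) ^ 2) ∈ 𝓝[<] ((1 - ε) ^ 2) := Ioo_mem_nhdsLT (by positivity)
    filter_upwards [h1] with τ hτ
    exact key τ hτ.1 hτ.2
  have h1 := le_of_tendsto hlim hev
  have h2 : ((1 - ε) ^ 2) ^ ((m : ℝ) / 2) = (1 - ε) ^ m := by
    rw [← Real.rpow_natCast (1 - ε) 2, ← Real.rpow_mul hε'.le, ← Real.rpow_natCast (1 - ε) m]
    congr 1
    push_cast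
    ring
  rw [h2] at h1
  exact h1

end Pool.Agent.Helper62.HC
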