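import Mathlib
import Pool.Agent.Helper74.ISC.General
import Pool.Agent.Helper62.HC.Abp

/-!
# The inequality in every codimension at least five

Same reductions as `Pool.Agent.Helper74.ISC.Conn` and `Pool.Agent.Helper74.ISC.General`.
-/

namespace Pool.Agent.Helper62.HC

open Module InnerProductSpace MeasureTheory Set Filter Topology
open Pool.Agent.Helper74.Iso
open Pool.Agent.Helper74.ISC
open scoped ContDiff ENNReal

variable {E : Type*} [NormedAddCommGroup E] [InnerProductSpace ℝ E] [FiniteDimensional ℝ E]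
  [MeasurableSpace E] [BorelSpace E]
variable {m : ℕ} {M B : Set E}

/-- the quotient of the two constants -/
noncomputable def lowConst (m q : ℕ) : ℝ :=
  ((m : ℝ) + q) * ballVol (m + q) * (((m : ℝ) + q - 2) / (q - 2)) ^ (((q : ℝ) - 2) / 2) *
    (m : ℝ) ^ m / (q * ballVol q)

private lemma den_pos {q : ℕ} (hq : 5 ≤ q) : 0 < q * ballVol q := by
  have hq5 : (5 : ℝ) ≤ q := by exact_mod_cast hq
  have h1 := ballVol_pos q
  positivity

private lemma lowConst_nonneg {q : ℕ} (hq : 5 ≤ q) (m : ℕ) : 0 ≤ lowConst m q := by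
  have hq5 : (5 : ℝ) ≤ q := by exact_mod_cast hq
  have hm0 : (0 : ℝ) ≤ m := Nat.cast_nonneg m
  have h1 := ballVol_pos (m + q)
  have h2 := den_pos hq
  have h3 : 0 ≤ (((m : ℝ) + q - 2) / (q - 2)) ^ (((q : ℝ) - 2) / 2) :=
    Real.rpow_nonneg (div_nonneg (by linarith) (by linarith)) _
  unfold lowConst
  positivity

private theorem connected_ineq (h : IsCompactSubmanifoldWithBoundary m M B)
    (hs : IsStationary m M B) (hm : 2 ≤ m) {q : ℕ} (hq : 5 ≤ q) (hE : finrank ℝ E = m + q)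
    (hne : M.Nonempty) (hc : IsPreconnected M) :
    lowConst m q * (μHE[m] M).toReal ^ (m - 1) ≤ (μHE[m - 1] B).toReal ^ m := by
  obtain ⟨p, hp⟩ := hne
  have hVpos : 0 < (μHE[m] M).toReal := by
    refine ENNReal.toReal_pos ?_ (muHE_lt_top h).ne
    have h1 := muHE_pos h hp one_pos
    exact (h1.trans_le (measure_mono inter_subset_left)).ne'
  set V := (μHE[m] M).toReal with hV
  set σ := (μHE[m - 1] B).toReal with hσ
  have hσ0 : 0 ≤ σ := ENNReal.toReal_nonneg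
  have hm0 : (0 : ℝ) < m := by exact_mod_cast (by omega : 0 < m)
  set a : ℝ := ((m : ℝ) + q) * ballVol (m + q) *
    (((m : ℝ) + q - 2) / (q - 2)) ^ (((q : ℝ) - 2) / 2) with ha
  set d : ℝ := q * ballVol q with hd
  have hd0 : 0 < d := den_pos hq
  have key : ∀ ε : ℝ, 0 < ε → ε < 1 →
      a * (1 - ε) ^ m ≤ d * (((σ / V + ε) / m) ^ m * V) := by
    intro ε hε hε1
    obtain ⟨U, hU, hlap, hbd⟩ := exists_potential h hs hm ⟨p, hp⟩ hc hε
    exact abp_gain h hs ⟨p, hp⟩ hm hq hE hU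
      (by positivity) hε hε1 (fun x hx => (hlap x hx).le) hbd
  have t1 : Tendsto (fun ε : ℝ => a * (1 - ε) ^ m) (𝓝[>] 0)
      (𝓝 (a * (1 - 0) ^ m)) :=
    (Continuous.tendsto (by fun_prop) 0).mono_left nhdsWithin_le_nhds
  have t2 : Tendsto (fun ε : ℝ => d * (((σ / V + ε) / m) ^ m * V)) (𝓝[>] 0)
      (𝓝 (d * (((σ / V + 0) / m) ^ m * V))) :=
    (Continuous.tendsto (by fun_prop) 0).mono_left nhdsWithin_le_nhds
  have h3 : a * (1 - 0) ^ m ≤ d * (((σ / V + 0) / m) ^ m * V) := by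
    refine le_of_tendsto_of_tendsto t1 t2 ?_
    filter_upwards [Ioo_mem_nhdsGT (zero_lt_one' ℝ)] with ε hε using key ε hε.1 hε.2
  rw [sub_zero, one_pow, mul_one, add_zero, div_div, div_pow, mul_pow] at h3
  have hVm : V ^ m = V ^ (m - 1) * V := by
    rw [← pow_succ]; congr 1; omega
  rw [div_mul_eq_mul_div, mul_div_assoc', le_div_iff₀ (by positivity), hVm] at h3
  have h4 : (a * (m : ℝ) ^ m * V ^ (m - 1)) * V ≤ (d * σ ^ m) * V := by
    calc (a * (m : ℝ) ^ m * V ^ (m - 1)) * V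
        = a * (V ^ (m - 1) * V * (m : ℝ) ^ m) := by ring
      _ ≤ d * (σ ^ m * V) := h3
      _ = (d * σ ^ m) * V := by ring
  have h5 := le_of_mul_le_mul_right h4 hVpos
  unfold lowConst
  rw [← ha, ← hd, div_mul_eq_mul_div, div_le_iff₀ hd0]
  linarith

/-- the inequality for sets covered by finitely many preconnected subsets -/
private theorem cover_ineq (hm : 2 ≤ m) {q : ℕ} (hq : 5 ≤ q) (hE : finrank ℝ E = m + q) (r : ℕ) :
    ∀ (M B : Set E), IsCompactSubmanifoldWithBoundary m M B → IsStationary m M B →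
      ∀ F : Finset (Set E), F.card = r → (∀ W ∈ F, IsPreconnected W) → (∀ W ∈ F, W.Nonempty) →
        (∀ W ∈ F, W ⊆ M) → (∀ x ∈ M, ∃ W ∈ F, x ∈ W) →
        lowConst m q * (μHE[m] M).toReal ^ (m - 1) ≤ (μHE[m - 1] B).toReal ^ m := by
  classical
  induction r using Nat.strong_induction_on with
  | _ r ih =>
  intro M B h hs F hF hpre hne hsub hcov
  rcases M.eq_empty_or_nonempty with hM0 | hM0
  · rw [hM0]
    simp only [measure_empty, ENNReal.toReal_zero]
    rw [zero_pow (by omega : m - 1 ≠ 0), mul_zero]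
    exact pow_nonneg ENNReal.toReal_nonneg _
  by_cases hc : IsPreconnected M
  · exact connected_ineq h hs hm hq hE hM0 hc
  rw [isPreconnected_closed_iff] at hc
  push Not at hc
  obtain ⟨t, t', ht, ht', htt, hMt, hMt', hemp⟩ := hc
  have hMcl : IsClosed M := h.isCompact.isClosed
  have h₁ : IsClosed (M ∩ t) := hMcl.inter ht
  have h₂ : IsClosed (M ∩ t') := hMcl.inter ht'
  have hd : Disjoint (M ∩ t) (M ∩ t') := by
    rw [Set.disjoint_left]
    rintro x ⟨hx1, hx2⟩ ⟨_, hx3⟩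
    have : x ∈ M ∩ (t ∩ t') := ⟨hx1, hx2, hx3⟩
    rw [hemp] at this
    exact this
  have hu : M = (M ∩ t) ∪ (M ∩ t') := by
    rw [← Set.inter_union_distrib_left]
    exact (Set.inter_eq_left.2 htt).symm
  have hu' : M = (M ∩ t') ∪ (M ∩ t) := by rw [Set.union_comm]; exact hu
  have hW : ∀ W ∈ F, W ⊆ M ∩ t ∨ W ⊆ M ∩ t' := by
    intro W hWF
    by_contra hcon
    push Not at hcon
    obtain ⟨hn1, hn2⟩ := hcon
    have hp := (isPreconnected_closed_iff.1 (hpre W hWF)) t t' ht ht'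
      ((hsub W hWF).trans htt)
    obtain ⟨x, hx1, hx2⟩ := Set.not_subset.1 hn1
    obtain ⟨y, hy1, hy2⟩ := Set.not_subset.1 hn2
    have hxM := hsub W hWF hx1
    have hyM := hsub W hWF hy1
    have hxt' : x ∈ t' := (htt hxM).resolve_left fun h0 => hx2 ⟨hxM, h0⟩
    have hyt : y ∈ t := (htt hyM).resolve_right fun h0 => hy2 ⟨hyM, h0⟩
    obtain ⟨z, hz1, hz2⟩ := hp ⟨y, hy1, hyt⟩ ⟨x, hx1, hxt'⟩
    have : z ∈ M ∩ (t ∩ t') := ⟨hsub W hWF hz1, hz2⟩
    rw [hemp] at this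
    exact this
  have key : ∀ M₁ M₂ : Set E, Disjoint M₁ M₂ → (∀ W ∈ F, W ⊆ M₁ ∨ W ⊆ M₂) → M₂.Nonempty →
      M₁ ⊆ M → M₂ ⊆ M → (F.filter (· ⊆ M₁)).card < r ∧
        (∀ x ∈ M₁, ∃ W ∈ F.filter (· ⊆ M₁), x ∈ W) := by
    intro M₁ M₂ hd hW hne2 hs1 hs2
    constructor
    · rw [← hF]
      apply Finset.card_lt_card
      rw [Finset.filter_ssubset]
      obtain ⟨x, hx⟩ := hne2
      obtain ⟨W, hWF, hxW⟩ := hcov x (hs2 hx)
      refine ⟨W, hWF, fun h0 => ?_⟩
      exact Set.disjoint_left.1 hd (h0 hxW) hx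
    · intro x hx
      obtain ⟨W, hWF, hxW⟩ := hcov x (hs1 hx)
      refine ⟨W, ?_, hxW⟩
      rw [Finset.mem_filter]
      refine ⟨hWF, ?_⟩
      rcases hW W hWF with h0 | h0
      · exact h0
      · exact absurd (h0 hxW) (Set.disjoint_left.1 hd hx)
  have k1 := key (M ∩ t) (M ∩ t') hd hW hMt' Set.inter_subset_left Set.inter_subset_left
  have k2 := key (M ∩ t') (M ∩ t) hd.symm (fun W hWF => (hW W hWF).symm) hMt
    Set.inter_subset_left Set.inter_subset_left
  have i1 := ih _ k1.1 (M ∩ t) (B ∩ (M ∩ t)) (piece h h₁ h₂ hd hu)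
    (stationary_piece h hs h₁ h₂ hd hu) (F.filter (· ⊆ M ∩ t)) rfl
    (fun W hW => hpre W (Finset.mem_filter.1 hW).1) (fun W hW => hne W (Finset.mem_filter.1 hW).1)
    (fun W hW => (Finset.mem_filter.1 hW).2) k1.2
  have i2 := ih _ k2.1 (M ∩ t') (B ∩ (M ∩ t')) (piece h h₂ h₁ hd.symm hu')
    (stationary_piece h hs h₂ h₁ hd.symm hu') (F.filter (· ⊆ M ∩ t')) rfl
    (fun W hW => hpre W (Finset.mem_filter.1 hW).1) (fun W hW => hne W (Finset.mem_filter.1 hW).1)
    (fun W hW => (Finset.mem_filter.1 hW).2) k2.2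
  have hMfin : μHE[m] M < ⊤ := muHE_lt_top h
  have hBfin : μHE[m - 1] B < ⊤ := (muHE_boundary h (by omega)).2
  have eM : (μHE[m] M).toReal = (μHE[m] (M ∩ t)).toReal + (μHE[m] (M ∩ t')).toReal := by
    rw [← ENNReal.toReal_add (ne_of_lt (lt_of_le_of_lt (measure_mono Set.inter_subset_left) hMfin))
      (ne_of_lt (lt_of_le_of_lt (measure_mono Set.inter_subset_left) hMfin)),
      ← measure_union hd h₂.measurableSet, ← hu]
  have hBu : B = (B ∩ (M ∩ t)) ∪ (B ∩ (M ∩ t')) := by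
    rw [← Set.inter_union_distrib_left, ← hu]
    exact (Set.inter_eq_left.2 h.boundary_subset).symm
  have hdB : Disjoint (B ∩ (M ∩ t)) (B ∩ (M ∩ t')) :=
    hd.mono Set.inter_subset_right Set.inter_subset_right
  have eB : (μHE[m - 1] B).toReal = (μHE[m - 1] (B ∩ (M ∩ t))).toReal +
      (μHE[m - 1] (B ∩ (M ∩ t'))).toReal := by
    rw [← ENNReal.toReal_add (ne_of_lt (lt_of_le_of_lt (measure_mono Set.inter_subset_left) hBfin))
      (ne_of_lt (lt_of_le_of_lt (measure_mono Set.inter_subset_left) hBfin)),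
      ← measure_union hdB (h.isClosed_boundary.inter h₂).measurableSet, ← hBu]
  rw [eM, eB]
  exact add_ineq hm (lowConst_nonneg hq m) ENNReal.toReal_nonneg
    ENNReal.toReal_nonneg ENNReal.toReal_nonneg ENNReal.toReal_nonneg i1 i2

theorem general_gain (h : IsCompactSubmanifoldWithBoundary m M B) (hs : IsStationary m M B)
    (hm : 2 ≤ m) {q : ℕ} (hq : 5 ≤ q) (hE : finrank ℝ E = m + q) :
    lowConst m q * (μHE[m] M).toReal ^ (m - 1) ≤ (μHE[m - 1] B).toReal ^ m := by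
  classical
  obtain ⟨r, W, hpre, hne, hsub, hcov⟩ := exists_cover h
  refine cover_ineq hm hq hE _ M B h hs (Finset.univ.image W) rfl ?_ ?_ ?_ ?_
  · intro V hV
    obtain ⟨i, _, rfl⟩ := Finset.mem_image.1 hV
    exact hpre i
  · intro V hV
    obtain ⟨i, _, rfl⟩ := Finset.mem_image.1 hV
    exact hne i
  · intro V hV
    obtain ⟨i, _, rfl⟩ := Finset.mem_image.1 hV
    exact hsub i
  · intro x hx
    obtain ⟨i, hi⟩ := Set.mem_iUnion.1 (hcov hx)
    exact ⟨W i, Finset.mem_image_of_mem W (Finset.mem_univ i), hi⟩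

/-- the inequality in codimension `n - m` at least five -/
theorem main_gain {n : ℕ} (hm : 2 ≤ m) (hn : m + 5 ≤ n) {M B : Set (EuclideanSpace ℝ (Fin n))}
    (h : IsCompactSubmanifoldWithBoundary m M B) (hs : IsStationary m M B) :
    (n : ℝ≥0∞) * volume (Metric.ball (0 : EuclideanSpace ℝ (Fin n)) 1) *
        ENNReal.ofReal ((((n : ℝ) - 2) / ((n : ℝ) - m - 2)) ^ (((n : ℝ) - m - 2) / 2)) *
        (m : ℝ≥0∞) ^ m * μHE[m] M ^ (m - 1) ≤
      ((n - m : ℕ) : ℝ≥0∞) * volume (Metric.ball (0 : EuclideanSpace ℝ (Fin (n - m))) 1) *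
        μHE[m - 1] B ^ m := by
  obtain ⟨q, rfl⟩ : ∃ q, n = m + q := ⟨n - m, by omega⟩
  have hq : 5 ≤ q := by omega
  have hq5 : (5 : ℝ) ≤ q := by exact_mod_cast hq
  have hm0 : (0 : ℝ) ≤ m := Nat.cast_nonneg m
  have hfr : finrank ℝ (EuclideanSpace ℝ (Fin (m + q))) = m + q := finrank_euclideanSpace_fin
  have hg := general_gain h hs hm hq hfr
  have hMfin : μHE[m] M ≠ ⊤ := (muHE_lt_top h).ne
  have hBfin : μHE[m - 1] B ≠ ⊤ := (muHE_boundary h (by omega)).2.ne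
  have hball : ∀ k : ℕ, volume (Metric.ball (0 : EuclideanSpace ℝ (Fin k)) 1) ≠ ⊤ := fun k =>
    measure_ball_lt_top.ne
  have hmq : m + q - m = q := by omega
  have hshape : ((((m + q : ℕ) : ℝ) - 2) / (((m + q : ℕ) : ℝ) - m - 2)) ^
      ((((m + q : ℕ) : ℝ) - m - 2) / 2) =
      (((m : ℝ) + q - 2) / (q - 2)) ^ (((q : ℝ) - 2) / 2) := by
    push_cast
    congr 2 <;> ring
  rw [hmq, hshape]
  set w : ℝ := (((m : ℝ) + q - 2) / (q - 2)) ^ (((q : ℝ) - 2) / 2) with hw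
  have hw0 : 0 ≤ w := Real.rpow_nonneg (div_nonneg (by linarith) (by linarith)) _
  have hl : ((m + q : ℕ) : ℝ≥0∞) *
      volume (Metric.ball (0 : EuclideanSpace ℝ (Fin (m + q))) 1) * ENNReal.ofReal w *
        (m : ℝ≥0∞) ^ m * μHE[m] M ^ (m - 1) ≠ ⊤ :=
    ENNReal.mul_ne_top (ENNReal.mul_ne_top (ENNReal.mul_ne_top (ENNReal.mul_ne_top
      (ENNReal.natCast_ne_top _) (hball _)) ENNReal.ofReal_ne_top)
      (ENNReal.pow_ne_top (ENNReal.natCast_ne_top m))) (ENNReal.pow_ne_top hMfin)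
  have hr : (q : ℝ≥0∞) * volume (Metric.ball (0 : EuclideanSpace ℝ (Fin q)) 1) *
      μHE[m - 1] B ^ m ≠ ⊤ :=
    ENNReal.mul_ne_top (ENNReal.mul_ne_top (ENNReal.natCast_ne_top _) (hball _))
      (ENNReal.pow_ne_top hBfin)
  rw [← ENNReal.toReal_le_toReal hl hr]
  simp only [ENNReal.toReal_mul, ENNReal.toReal_pow, ENNReal.toReal_natCast]
  rw [ENNReal.toReal_ofReal hw0]
  unfold lowConst at hg
  rw [← hw, div_mul_eq_mul_div, div_le_iff₀ (den_pos hq)] at hg
  unfold ballVol at hg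
  push_cast
  linarith

end Pool.Agent.Helper62.HC
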