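import Mathlib
import Pool.Agent.Helper62.HC.Final

/-!
# Comparison with the constant of the flat disc

With `N = n/2 - 1`, `κ = (n - m)/2 - 1`: `ω_m (n-m) ω_{n-m} / (n ω_n) = Γ(N+1)/(Γ(κ+1) Γ(N+1-κ)) ≤ N^κ / Γ(κ+1)`
by the logarithmic convexity of `Γ`.
-/

namespace Pool.Agent.Helper62.HC

open Module InnerProductSpace MeasureTheory Set Filter Topology
open Pool.Agent.Helper74.Iso
open Pool.Agent.Helper74.ISC
open scoped ContDiff ENNReal

/-- the loss: `κ ^ κ / Γ(κ + 1)` with `κ = (k - 2)/2` -/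
noncomputable def codimLoss (k : ℕ) : ℝ :=
  (((k : ℝ) - 2) / 2) ^ (((k : ℝ) - 2) / 2) / Real.Gamma ((k : ℝ) / 2)

private theorem ballVol_eq {k : ℕ} (hk : 0 < k) :
    ballVol k = √Real.pi ^ k / Real.Gamma ((k : ℝ) / 2 + 1) := by
  have : Nonempty (Fin k) := ⟨⟨0, hk⟩⟩
  unfold ballVol
  rw [EuclideanSpace.volume_ball, Fintype.card_fin, ENNReal.ofReal_one, one_pow, one_mul,
    ENNReal.toReal_ofReal]
  have h : 0 < Real.Gamma ((k : ℝ) / 2 + 1) := Real.Gamma_pos_of_pos (by positivity)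
  positivity

private theorem mul_ballVol {k : ℕ} (hk : 0 < k) :
    (k : ℝ) * ballVol k = 2 * √Real.pi ^ k / Real.Gamma ((k : ℝ) / 2) := by
  have hk0 : (0 : ℝ) < k := by exact_mod_cast hk
  have hG : 0 < Real.Gamma ((k : ℝ) / 2) := Real.Gamma_pos_of_pos (by positivity)
  rw [ballVol_eq hk, Real.Gamma_add_one (by positivity)]
  field_simp

private theorem gamma_le {N κ : ℝ} (hκ : 1 ≤ κ) (hN : κ < N + 1) (hN0 : 0 < N) :
    Real.Gamma (N + 1) ≤ N ^ κ * Real.Gamma (N + 1 - κ) := by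
  have hκ0 : 0 < κ := by linarith
  have g1 : 0 < Real.Gamma (N + 1) := Real.Gamma_pos_of_pos (by linarith)
  have g2 : 0 < Real.Gamma (N + 1 - κ) := Real.Gamma_pos_of_pos (by linarith)
  have g3 : 0 < Real.Gamma N := Real.Gamma_pos_of_pos hN0
  have h1 := Real.convexOn_log_Gamma.secant_mono (a := N + 1) (x := N + 1 - κ) (y := N)
    (mem_Ioi.2 (by linarith)) (mem_Ioi.2 (by linarith)) (mem_Ioi.2 hN0) (by linarith)
    (by linarith) (by linarith)
  simp only [Function.comp_apply] at h1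
  have h2 : Real.log (Real.Gamma (N + 1)) = Real.log N + Real.log (Real.Gamma N) := by
    rw [Real.Gamma_add_one hN0.ne', Real.log_mul hN0.ne' g3.ne']
  have h3 : (Real.log (Real.Gamma N) - Real.log (Real.Gamma (N + 1))) / (N - (N + 1)) =
      Real.log N := by
    rw [h2]
    have : N - (N + 1) = -1 := by ring
    rw [this]
    ring
  have h4 : N + 1 - κ - (N + 1) = -κ := by ring
  rw [h3, h4, div_neg, ← neg_div, neg_sub, div_le_iff₀ hκ0] at h1
  have h5 : Real.log (Real.Gamma (N + 1)) ≤ Real.log (N ^ κ * Real.Gamma (N + 1 - κ)) := by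
    rw [Real.log_mul (Real.rpow_pos_of_pos hN0 κ).ne' g2.ne', Real.log_rpow hN0]
    linarith
  exact (Real.log_le_log_iff g1 (mul_pos (Real.rpow_pos_of_pos hN0 κ) g2)).1 h5

/-- comparison of the constants -/
theorem const_le {m q : ℕ} (hm : 2 ≤ m) (hq : 5 ≤ q) :
    (m : ℝ) ^ m * ballVol m ≤ codimLoss q * lowConst m q := by
  have hm0 : (2 : ℝ) ≤ m := by exact_mod_cast hm
  have hq5 : (5 : ℝ) ≤ q := by exact_mod_cast hq
  set N : ℝ := ((m : ℝ) + q - 2) / 2 with hN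
  set κ : ℝ := ((q : ℝ) - 2) / 2 with hκ
  have hκ1 : 1 ≤ κ := by rw [hκ]; linarith
  have hN0 : 0 < N := by rw [hN]; linarith
  have hκ0 : 0 < κ := by linarith
  have h1 := gamma_le hκ1 (by rw [hκ, hN]; linarith) hN0
  have e1 : N + 1 = (((m + q : ℕ) : ℝ)) / 2 := by
    rw [hN]
    push_cast
    ring
  have e2 : N + 1 - κ = (m : ℝ) / 2 + 1 := by
    rw [hN, hκ]
    ring
  rw [e2, e1] at h1
  have g1 : 0 < Real.Gamma ((((m + q : ℕ) : ℝ)) / 2) :=
    Real.Gamma_pos_of_pos (by push_cast; linarith)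
  have g2 : 0 < Real.Gamma ((m : ℝ) / 2 + 1) := Real.Gamma_pos_of_pos (by linarith)
  have g3 : 0 < Real.Gamma ((q : ℝ) / 2) := Real.Gamma_pos_of_pos (by linarith)
  have hNκ : 0 < N ^ κ := Real.rpow_pos_of_pos hN0 κ
  have hκκ : 0 < κ ^ κ := Real.rpow_pos_of_pos hκ0 κ
  have hσ : (((m : ℝ) + q - 2) / (q - 2)) ^ (((q : ℝ) - 2) / 2) = N ^ κ / κ ^ κ := by
    rw [← hκ, ← Real.div_rpow hN0.le hκ0.le]
    congr 1
    rw [hN, hκ]
    have : (q : ℝ) - 2 ≠ 0 := by linarith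
    field_simp
  have hqb := mul_ballVol (k := q) (by omega)
  have hnb := mul_ballVol (k := m + q) (by omega)
  have hcast : ((m : ℝ) + q) * ballVol (m + q) = (((m + q : ℕ) : ℝ)) * ballVol (m + q) := by
    push_cast
    ring
  unfold lowConst codimLoss
  rw [hσ, ← hκ, hcast, hnb, hqb, ballVol_eq (k := m) (by omega), pow_add]
  have hpi : 0 < √Real.pi := Real.sqrt_pos.2 Real.pi_pos
  have hmm : (0 : ℝ) < (m : ℝ) ^ m := by positivity
  have e3 : κ ^ κ / Real.Gamma ((q : ℝ) / 2) *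
      (2 * (√Real.pi ^ m * √Real.pi ^ q) / Real.Gamma ((((m + q : ℕ) : ℝ)) / 2) *
        (N ^ κ / κ ^ κ) * (m : ℝ) ^ m / (2 * √Real.pi ^ q / Real.Gamma ((q : ℝ) / 2))) =
      (m : ℝ) ^ m * √Real.pi ^ m * (N ^ κ / Real.Gamma ((((m + q : ℕ) : ℝ)) / 2)) := by
    field_simp
  rw [e3, ← mul_div_assoc]
  have e4 : (m : ℝ) ^ m * √Real.pi ^ m / Real.Gamma ((m : ℝ) / 2 + 1) =
      (m : ℝ) ^ m * √Real.pi ^ m * (1 / Real.Gamma ((m : ℝ) / 2 + 1)) := by ring
  rw [e4]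
  refine mul_le_mul_of_nonneg_left ?_ (by positivity)
  rw [div_le_div_iff₀ g2 g1, one_mul]
  exact h1

variable {m : ℕ}

/-- comparison with the flat disc, in codimension `n - m` at least five -/
theorem main_loss {n : ℕ} (hm : 2 ≤ m) (hn : m + 5 ≤ n) {M B : Set (EuclideanSpace ℝ (Fin n))}
    (h : IsCompactSubmanifoldWithBoundary m M B) (hs : IsStationary m M B) :
    (m : ℝ≥0∞) ^ m * volume (Metric.ball (0 : EuclideanSpace ℝ (Fin m)) 1) *
        μHE[m] M ^ (m - 1) ≤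
      ENNReal.ofReal ((((n : ℝ) - m - 2) / 2) ^ (((n : ℝ) - m - 2) / 2) /
        Real.Gamma (((n : ℝ) - m) / 2)) * μHE[m - 1] B ^ m := by
  obtain ⟨q, rfl⟩ : ∃ q, n = m + q := ⟨n - m, by omega⟩
  have hq : 5 ≤ q := by omega
  have hq5 : (5 : ℝ) ≤ q := by exact_mod_cast hq
  have hfr : finrank ℝ (EuclideanSpace ℝ (Fin (m + q))) = m + q := finrank_euclideanSpace_fin
  have hg := general_gain h hs hm hq hfr
  have hMfin : μHE[m] M ≠ ⊤ := (muHE_lt_top h).ne
  have hBfin : μHE[m - 1] B ≠ ⊤ := (muHE_boundary h (by omega)).2.ne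
  have hball : volume (Metric.ball (0 : EuclideanSpace ℝ (Fin m)) 1) ≠ ⊤ :=
    measure_ball_lt_top.ne
  have hshape : ((((m + q : ℕ) : ℝ) - m - 2) / 2) ^ ((((m + q : ℕ) : ℝ) - m - 2) / 2) /
        Real.Gamma ((((m + q : ℕ) : ℝ) - m) / 2) = codimLoss q := by
    unfold codimLoss
    have h1 : (((m + q : ℕ) : ℝ)) - m = q := by push_cast; ring
    rw [h1]
  rw [hshape]
  have hc0 : 0 ≤ codimLoss q := by
    unfold codimLoss
    exact div_nonneg (Real.rpow_nonneg (by linarith) _)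
      (Real.Gamma_pos_of_pos (by linarith)).le
  have hl : (m : ℝ≥0∞) ^ m * volume (Metric.ball (0 : EuclideanSpace ℝ (Fin m)) 1) *
      μHE[m] M ^ (m - 1) ≠ ⊤ :=
    ENNReal.mul_ne_top (ENNReal.mul_ne_top (ENNReal.pow_ne_top (ENNReal.natCast_ne_top m)) hball)
      (ENNReal.pow_ne_top hMfin)
  have hr : ENNReal.ofReal (codimLoss q) * μHE[m - 1] B ^ m ≠ ⊤ :=
    ENNReal.mul_ne_top ENNReal.ofReal_ne_top (ENNReal.pow_ne_top hBfin)
  rw [← ENNReal.toReal_le_toReal hl hr, ENNReal.toReal_mul, ENNReal.toReal_mul,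
    ENNReal.toReal_pow, ENNReal.toReal_pow, ENNReal.toReal_mul, ENNReal.toReal_pow,
    ENNReal.toReal_natCast, ENNReal.toReal_ofReal hc0]
  have h2 := mul_le_mul_of_nonneg_right (const_le hm hq)
    (pow_nonneg (ENNReal.toReal_nonneg (a := μHE[m] M)) (m - 1))
  have h3 := mul_le_mul_of_nonneg_left hg hc0
  unfold ballVol at h2
  calc _ ≤ codimLoss q * lowConst m q * (μHE[m] M).toReal ^ (m - 1) := h2
    _ = codimLoss q * (lowConst m q * (μHE[m] M).toReal ^ (m - 1)) := mul_assoc _ _ _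
    _ ≤ _ := h3

end Pool.Agent.Helper62.HC
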